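import Mathlib
import Pool.Agent.Y131.PH.Osc

/-!
Mean oscillation of homogeneous fields, and failure of Hölder regularity from a lower bound along
one ray.
-/

set_option autoImplicit false

namespace Pool.Agent.Y310.SC.Osc

open MeasureTheory Set Filter Topology
open scoped Pointwise
open Pool.Agent.Y131.PH (RE Mat osc osc_translate)

variable {d n : ℕ}

theorem average_scale {F : Type*} [NormedAddCommGroup F] [NormedSpace ℝ F]
    (f : RE d → F) {r : ℝ} (hr : 0 < r) :
    ⨍ x in Metric.ball (0 : RE d) r, f x = ⨍ x in Metric.ball (0 : RE d) 1, f (r • x) := by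
  have hball : r • Metric.ball (0 : RE d) 1 = Metric.ball (0 : RE d) r := by
    rw [smul_unitBall_of_pos hr]
  have hint := Measure.setIntegral_comp_smul_of_pos (volume : Measure (RE d)) f
    (Metric.ball (0 : RE d) 1) hr
  rw [hball] at hint
  have hvol : volume.real (Metric.ball (0 : RE d) r)
      = r ^ (Module.finrank ℝ (RE d)) * volume.real (Metric.ball (0 : RE d) 1) := by
    simp only [Measure.real]
    rw [Measure.addHaar_ball_of_pos _ _ hr, ENNReal.toReal_mul,
      ENNReal.toReal_ofReal (by positivity)]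
  rw [setAverage_eq, setAverage_eq, hint, hvol, smul_smul, mul_inv]
  congr 1
  ring

theorem osc_scale {f : RE d → Mat n d} {r c : ℝ} (hr : 0 < r) (hc : 0 ≤ c)
    (hf : ∀ x, f (r • x) = c • f x) :
    osc f (Metric.ball (0 : RE d) r) = c * osc f (Metric.ball (0 : RE d) 1) := by
  unfold osc
  have h1 : (⨍ y in Metric.ball (0 : RE d) r, f y) =
      c • ⨍ y in Metric.ball (0 : RE d) 1, f y := by
    rw [average_scale f hr]
    simp only [hf]
    rw [setAverage_eq, setAverage_eq, integral_smul, smul_comm]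
  rw [average_scale (fun x => ‖f x - ⨍ y in Metric.ball (0 : RE d) r, f y‖ ^ 2) hr, h1]
  simp only [hf]
  generalize (⨍ y in Metric.ball (0 : RE d) 1, f y) = m
  have h2 : ∀ x, ‖c • f x - c • m‖ ^ 2 = c ^ 2 * ‖f x - m‖ ^ 2 := by
    intro x
    rw [← smul_sub, norm_smul, mul_pow, Real.norm_of_nonneg hc]
  simp only [h2]
  rw [setAverage_eq, setAverage_eq, integral_const_mul, smul_eq_mul, smul_eq_mul, ← mul_assoc,
    mul_comm _ (c ^ 2), mul_assoc, Real.sqrt_mul (by positivity), Real.sqrt_sq hc]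

theorem osc_pos {f : RE d → Mat n d} (hf : Continuous f) {x y : RE d}
    (hx : x ∈ Metric.ball (0 : RE d) 1) (hy : y ∈ Metric.ball (0 : RE d) 1) (hxy : f x ≠ f y) :
    0 < osc f (Metric.ball (0 : RE d) 1) := by
  unfold osc
  set c : Mat n d := ⨍ y in Metric.ball (0 : RE d) 1, f y
  rw [setAverage_eq, smul_eq_mul]
  apply Real.sqrt_pos.2
  have hv1 : 0 < volume.real (Metric.ball (0 : RE d) 1) := by
    simp only [Measure.real]
    exact ENNReal.toReal_pos (Metric.isOpen_ball.measure_pos volume ⟨x, hx⟩).ne'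
      measure_ball_lt_top.ne
  apply mul_pos (inv_pos.2 hv1)
  have hc : Continuous (fun x : RE d => ‖f x - c‖ ^ 2) := by fun_prop
  have hint : IntegrableOn (fun x : RE d => ‖f x - c‖ ^ 2) (Metric.ball (0 : RE d) 1) :=
    (hc.continuousOn.integrableOn_compact (isCompact_closedBall (0 : RE d) 1)).mono_set
      Metric.ball_subset_closedBall
  rw [setIntegral_pos_iff_support_of_nonneg_ae
    (Eventually.of_forall fun x => sq_nonneg _) hint]
  have hopen : IsOpen (Metric.ball (0 : RE d) 1 ∩ {x | 0 < ‖f x - c‖ ^ 2}) :=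
    Metric.isOpen_ball.inter (isOpen_lt continuous_const hc)
  have hsup : Metric.ball (0 : RE d) 1 ∩ {x | 0 < ‖f x - c‖ ^ 2} ⊆
      (Function.support fun x : RE d => ‖f x - c‖ ^ 2) ∩ Metric.ball (0 : RE d) 1 := by
    intro x hx
    have hx2 : 0 < ‖f x - c‖ ^ 2 := hx.2
    exact ⟨hx2.ne', hx.1⟩
  refine lt_of_lt_of_le ?_ (measure_mono hsup)
  apply hopen.measure_pos volume
  by_cases h : f x = c
  · refine ⟨y, hy, ?_⟩
    have : f y - c ≠ 0 := by
      rw [← h]
      exact sub_ne_zero.2 (Ne.symm hxy)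
    have := norm_pos_iff.2 this
    change 0 < ‖f y - c‖ ^ 2
    positivity
  · refine ⟨x, hx, ?_⟩
    have := norm_pos_iff.2 (sub_ne_zero.2 h)
    change 0 < ‖f x - c‖ ^ 2
    positivity

/-- no Hölder estimate with exponent above `σ` -/
theorem not_holder {B σ α C : ℝ} (hB : 0 < B) (hσα : σ < α)
    {f : RE d → Mat n d} (hfc : Continuous f) {z e : RE d} (he : ‖e‖ = 1) (hz : f z = 0)
    (hlow : ∀ t : ℝ, 0 < t → B * t ^ σ ≤ ‖f (z + t • e)‖) {U : Set (RE d)} (hU : IsOpen U)
    (hzU : z ∈ U) {W : RE d → Mat n d}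
    (hW : ContinuousOn W U) (hWf : W =ᵐ[volume.restrict U] f) :
    ¬ ∀ x ∈ U, ‖W x - W z‖ ≤ C * ‖x - z‖ ^ α := by
  intro hcon
  have heq : EqOn W f U := Measure.eqOn_open_of_ae_eq hWf hU hW hfc.continuousOn
  have hpt : ∀ t : ℝ, 0 < t → z + t • e ∈ U → B * t ^ σ ≤ C * t ^ α := by
    intro t ht hmem
    have h1 := hcon _ hmem
    rw [heq hmem, heq hzU, hz, sub_zero, add_sub_cancel_left, norm_smul,
      Real.norm_of_nonneg ht.le, he, mul_one] at h1
    exact (hlow t ht).trans h1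
  have hcont : Continuous (fun t : ℝ => z + t • e) := by fun_prop
  have hev : ∀ᶠ t in 𝓝[>] (0 : ℝ), z + t • e ∈ U := by
    have h1 : ∀ᶠ t in 𝓝 (0 : ℝ), z + t • e ∈ U := by
      apply hcont.tendsto 0
      apply hU.mem_nhds
      simpa using hzU
    exact h1.filter_mono nhdsWithin_le_nhds
  have hc : Continuous (fun t : ℝ => |C| * |t| ^ (α - σ)) := by
    have : Continuous (fun t : ℝ => |t| ^ (α - σ)) :=
      continuous_abs.rpow_const (fun x => Or.inr (by linarith))
    fun_prop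
  have hev2 : ∀ᶠ t in 𝓝[>] (0 : ℝ), |C| * |t| ^ (α - σ) < B := by
    have h2 := hc.tendsto 0
    have h3 : (α - σ) ≠ 0 := by linarith
    simp only [abs_zero, Real.zero_rpow h3, mul_zero] at h2
    exact (h2.mono_left nhdsWithin_le_nhds).eventually (gt_mem_nhds hB)
  have hev3 : ∀ᶠ t in 𝓝[>] (0 : ℝ), 0 < t := eventually_mem_nhdsWithin
  obtain ⟨t, h1, h2, h3⟩ := (hev.and (hev2.and hev3)).exists
  have h4 := hpt t h3 h1
  rw [abs_of_pos h3] at h2
  have hts : 0 < t ^ σ := Real.rpow_pos_of_pos h3 σ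
  have e1 : t ^ α = t ^ (α - σ) * t ^ σ := by
    rw [← Real.rpow_add h3]; congr 1; ring
  have h5 : C * t ^ α ≤ |C| * t ^ (α - σ) * t ^ σ := by
    rw [e1, mul_assoc]
    exact mul_le_mul_of_nonneg_right (le_abs_self C) (by positivity)
  have h6 := mul_lt_mul_of_pos_right h2 hts
  linarith

theorem not_C1 {B σ : ℝ} (hB : 0 < B) (hσ1 : σ < 1)
    {f : RE d → Mat n d} (hfc : Continuous f) {z e : RE d} (he : ‖e‖ = 1) (hz : f z = 0)
    (hlow : ∀ t : ℝ, 0 < t → B * t ^ σ ≤ ‖f (z + t • e)‖) {U : Set (RE d)} (hU : IsOpen U)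
    (hzU : z ∈ U) :
    ¬ ∃ W : RE d → Mat n d, ContDiffOn ℝ 1 W U ∧ W =ᵐ[volume.restrict U] f := by
  rintro ⟨W, hW, hWf⟩
  have hdiff : DifferentiableAt ℝ W z :=
    (hW.differentiableOn (by norm_num)).differentiableAt (hU.mem_nhds hzU)
  obtain ⟨K, hK⟩ := hdiff.hasFDerivAt.isBigO_sub.bound
  obtain ⟨O, hO, hOo, hOz⟩ := mem_nhds_iff.1 (inter_mem hK (hU.mem_nhds hzU))
  have hOU : O ⊆ U := fun x hx => (hO hx).2
  refine not_holder (C := K) hB hσ1 hfc he hz hlow hOo hOz (hW.continuousOn.mono hOU)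
    (ae_restrict_of_ae_restrict_of_subset hOU hWf) ?_
  intro x hx
  rw [Real.rpow_one]
  exact (hO hx).1

end Pool.Agent.Y310.SC.Osc
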