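import Mathlib

/-!
The choice of the upper bound of the degree.
-/

set_option autoImplicit false

namespace Pool.Agent.Y310.SC.Par

open Set Filter Topology

/-- the upper bound for large dimension -/
theorem par_large {M μ : ℝ} (hM : 4 ≤ M) (h0 : 0 < μ) (h1 : μ < 1) :
    2 + (1 - μ) / (M + 1) ≤ 2 + (1 - μ) / (M - 3) ∧ 2 + (1 - μ) / (M - 3) ≤ 3 ∧
    (2 + (1 - μ) / (M - 3)) ^ 2 - (2 * M - 1) * (2 + (1 - μ) / (M - 3)) + 4 * (M - 1)
      ≤ μ * (2 * (2 + (1 - μ) / (M - 3)) ^ 2 - (2 + (1 - μ) / (M - 3)) - 4) ∧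
    4 * M - (2 * M - 1) * (2 + (1 - μ) / (M - 3))
      ≤ μ * (2 + (1 - μ) / (M - 3)) * ((2 + (1 - μ) / (M - 3)) - 1) := by
  have hM3 : 0 < M - 3 := by linarith
  set τ : ℝ := 1 / (M - 3) with hτ
  have hτ0 : 0 < τ := by rw [hτ]; positivity
  have hτ1 : M * τ = 1 + 3 * τ := by
    rw [hτ]
    field_simp
    ring
  have hτ2 : τ ≤ 1 := by
    rw [hτ, div_le_iff₀ hM3]
    linarith
  have e : (1 - μ) / (M - 3) = (1 - μ) * τ := by rw [hτ]; ring
  refine ⟨?_, ?_, ?_, ?_⟩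
  · have : (1 - μ) / (M + 1) ≤ (1 - μ) / (M - 3) := by
      apply div_le_div_of_nonneg_left <;> linarith
    linarith
  · rw [e]
    nlinarith [mul_pos (sub_pos.2 h1) hτ0]
  · rw [e]
    have h2 : μ * (2 * (2 + (1 - μ) * τ) ^ 2 - (2 + (1 - μ) * τ) - 4)
        - ((2 + (1 - μ) * τ) ^ 2 - (2 * M - 1) * (2 + (1 - μ) * τ) + 4 * (M - 1))
        = (1 - μ) * (2 * (M * τ) - 2 - 5 * τ + 7 * μ * τ - (1 - 2 * μ) * (1 - μ) * τ ^ 2) := by
      ring
    rw [hτ1] at h2
    have h3 : 0 ≤ 2 * (1 + 3 * τ) - 2 - 5 * τ + 7 * μ * τ - (1 - 2 * μ) * (1 - μ) * τ ^ 2 := by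
      have h4 : (1 - 2 * μ) * (1 - μ) * τ ^ 2 ≤ τ ^ 2 := by
        have : (1 - 2 * μ) * (1 - μ) ≤ 1 := by nlinarith
        nlinarith [sq_nonneg τ]
      have h5 : τ ^ 2 ≤ τ := by nlinarith
      have h6 : 0 ≤ 7 * μ * τ := by positivity
      linarith
    have := mul_nonneg (sub_pos.2 h1).le h3
    linarith
  · rw [e]
    have h2 : μ * (2 + (1 - μ) * τ) * ((2 + (1 - μ) * τ) - 1)
        - (4 * M - (2 * M - 1) * (2 + (1 - μ) * τ))
        = (1 - μ) * (2 * (M * τ) - 2 - τ + 3 * μ * τ + μ * (1 - μ) * τ ^ 2) := by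
      ring
    rw [hτ1] at h2
    have h3 : 0 ≤ 2 * (1 + 3 * τ) - 2 - τ + 3 * μ * τ + μ * (1 - μ) * τ ^ 2 := by
      have h6 : 0 ≤ 3 * μ * τ := by positivity
      have h7 : 0 ≤ μ * (1 - μ) * τ ^ 2 :=
        mul_nonneg (mul_nonneg h0.le (sub_pos.2 h1).le) (sq_nonneg _)
      linarith
    have := mul_nonneg (sub_pos.2 h1).le h3
    linarith

/-- the choice of the upper bound -/
theorem exists_k2 {N : ℕ} (hN : 2 ≤ N) {p : ℝ} (hp1 : 1 < p) (hp2 : p < 2)
    (hp : 4 ≤ N ∨ 8 < 3 * (p - 1) ^ 2 + (2 * N + 1) * (p - 1) + 2 * N) :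
    ∃ k2 : ℝ, 2 + (1 - (p - 1)) / ((N : ℝ) + 1) ≤ k2 ∧ k2 ≤ 3 ∧
      k2 ^ 2 - (2 * N - 1) * k2 + 4 * (N - 1) ≤ (p - 1) * (2 * k2 ^ 2 - k2 - 4) ∧
      4 * N - (2 * N - 1) * k2 ≤ (p - 1) * k2 * (k2 - 1) ∧
      k2 < 1 + 2 / p ∧ (4 ≤ N → k2 ≤ 2 + (2 - p) / ((N : ℝ) - 3)) := by
  have hN' : (2 : ℝ) ≤ N := by exact_mod_cast hN
  have hp0 : 0 < p := by linarith
  by_cases h5 : 5 ≤ N
  · have h5' : (5 : ℝ) ≤ N := by exact_mod_cast h5
    obtain ⟨a, b, c, e⟩ := par_large (M := N) (μ := p - 1) (by linarith) (by linarith)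
      (by linarith)
    refine ⟨2 + (1 - (p - 1)) / ((N : ℝ) - 3), a, b, c, e, ?_, ?_⟩
    · have h6 : (1 - (p - 1)) / ((N : ℝ) - 3) ≤ (1 - (p - 1)) / 2 := by
        apply div_le_div_of_nonneg_left <;> linarith
      have h7 : (1 - (p - 1)) / 2 < 2 / p - 1 := by
        have : 2 / p - 1 - (1 - (p - 1)) / 2 = (2 - p) ^ 2 / (2 * p) := by
          field_simp
          ring
        have h8 : 0 < (2 - p) ^ 2 / (2 * p) := by
          apply div_pos (pow_pos (by linarith) 2) (by linarith)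
        linarith
      linarith
    · intro _
      have : 1 - (p - 1) = 2 - p := by ring
      rw [this]
  · have hcond : 8 < 3 * (p - 1) ^ 2 + (2 * N + 1) * (p - 1) + 2 * N := by
      rcases hp with h | h
      · have h4 : (4 : ℝ) ≤ N := by exact_mod_cast h
        nlinarith [sq_nonneg (p - 1)]
      · exact h
    set K : ℝ := 1 + 2 / p with hK
    have hKp : (K - 1) * p = 2 := by rw [hK]; field_simp; ring
    have hK2 : 2 < K := by
      have : 1 < 2 / p := by rw [lt_div_iff₀ hp0]; linarith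
      linarith
    have hK3 : K < 3 := by
      have : 2 / p < 2 := by rw [div_lt_iff₀ hp0]; linarith
      linarith
    have hA : K ^ 2 - (2 * N - 1) * K + 4 * (N - 1) < (p - 1) * (2 * K ^ 2 - K - 4) := by
      have e : (p - 1) * (2 * K ^ 2 - K - 4) - (K ^ 2 - (2 * N - 1) * K + 4 * (N - 1))
          = (2 - p) * (3 * (p - 1) ^ 2 + (2 * N + 1) * (p - 1) + 2 * N - 8) / p ^ 2 := by
        rw [hK]
        field_simp
        ring
      have h1 : 0 < (2 - p) * (3 * (p - 1) ^ 2 + (2 * N + 1) * (p - 1) + 2 * N - 8) / p ^ 2 := by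
        apply div_pos (mul_pos (by linarith) (by linarith)) (by positivity)
      linarith
    have hB : 4 * N - (2 * N - 1) * K < (p - 1) * K * (K - 1) := by
      have e : (p - 1) * K * (K - 1) - (4 * N - (2 * N - 1) * K)
          = (2 - p) * ((2 * N - 1) * (p - 1) + (2 * N - 3)) / p ^ 2 := by
        rw [hK]
        field_simp
        ring
      have h1 : 0 < (2 - p) * ((2 * N - 1) * (p - 1) + (2 * N - 3)) / p ^ 2 := by
        apply div_pos (mul_pos (by linarith) ?_) (by positivity)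
        have : 0 < (2 * (N : ℝ) - 1) * (p - 1) := mul_pos (by linarith) (by linarith)
        linarith
      linarith
    have hC : 2 + (1 - (p - 1)) / ((N : ℝ) + 1) < K := by
      have h6 : (1 - (p - 1)) / ((N : ℝ) + 1) ≤ (1 - (p - 1)) / 2 := by
        apply div_le_div_of_nonneg_left <;> linarith
      have h7 : (1 - (p - 1)) / 2 < 2 / p - 1 := by
        have : 2 / p - 1 - (1 - (p - 1)) / 2 = (2 - p) ^ 2 / (2 * p) := by
          field_simp
          ring
        have h8 : 0 < (2 - p) ^ 2 / (2 * p) := by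
          apply div_pos (pow_pos (by linarith) 2) (by linarith)
        linarith
      linarith
    have c1 : Continuous (fun k : ℝ => (p - 1) * (2 * k ^ 2 - k - 4)
        - (k ^ 2 - (2 * (N : ℝ) - 1) * k + 4 * (N - 1))) := by fun_prop
    have c2 : Continuous (fun k : ℝ => (p - 1) * k * (k - 1)
        - (4 * (N : ℝ) - (2 * N - 1) * k)) := by fun_prop
    have e1 : ∀ᶠ k in 𝓝[<] K, 0 < (p - 1) * (2 * k ^ 2 - k - 4)
        - (k ^ 2 - (2 * (N : ℝ) - 1) * k + 4 * (N - 1)) :=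
      (c1.continuousAt.eventually_const_lt (by linarith)).filter_mono nhdsWithin_le_nhds
    have e2 : ∀ᶠ k in 𝓝[<] K, 0 < (p - 1) * k * (k - 1) - (4 * (N : ℝ) - (2 * N - 1) * k) :=
      (c2.continuousAt.eventually_const_lt (by linarith)).filter_mono nhdsWithin_le_nhds
    have e3 : ∀ᶠ k in 𝓝[<] K, 2 + (1 - (p - 1)) / ((N : ℝ) + 1) < k :=
      (continuous_id.continuousAt.eventually_const_lt hC).filter_mono nhdsWithin_le_nhds
    have e4 : ∀ᶠ k in 𝓝[<] K, k < K := eventually_mem_nhdsWithin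
    obtain ⟨k, h1, h2, h3, h4⟩ := (e1.and (e2.and (e3.and e4))).exists
    refine ⟨k, h3.le, by linarith, by linarith, by linarith, h4, ?_⟩
    intro h
    have hN4 : N = 4 := by omega
    subst hN4
    have h6 : K ≤ 2 + (2 - p) / ((4 : ℕ) - 3 : ℝ) := by
      have e : 2 + (2 - p) / ((4 : ℕ) - 3 : ℝ) - K = (2 - p) * (p - 1) / p := by
        rw [hK]
        push_cast
        field_simp
        ring
      have : 0 < (2 - p) * (p - 1) / p :=
        div_pos (mul_pos (by linarith) (by linarith)) hp0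
      linarith
    linarith

end Pool.Agent.Y310.SC.Par
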