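import Pool.Agent.Helper749.ConeOde

/-!
The slope equation of the homogeneous `p`-harmonic functions on `R^(ν+1) x R^(ν+1)`,
generalising `Pool.Agent.Helper749.ConeOde` (which is the case `ν = 3`), with a sharper
supersolution.
-/

set_option autoImplicit false

namespace Pool.Agent.Y310.SC.Ode

open Set Filter Topology NNReal Metric
open Pool.Agent.Helper749.ConeOde (exists_global comparison DD DD_lower DD_upper DD_pos
  abs_tanh_le sc_bound cosh_half hasDerivAt_DD bar bar' hasDerivAt_bar bar_pos bar_zero bar_mono)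

/-- The numerator. -/
noncomputable def NN (ν μ k t x : ℝ) : ℝ :=
  ν * Real.tanh t * (Real.sin x * Real.cos x)
    - (μ * k + (2 * ν + 1 - μ) * Real.cos x ^ 2) / (2 * Real.cosh t)

/-- The field. -/
noncomputable def HH (ν μ k t x : ℝ) : ℝ := NN ν μ k t x / DD μ x

variable {ν : ℝ}

lemma NN_bound (hν : 1 ≤ ν) {μ k : ℝ} (h0 : 0 < μ) (h1 : μ < 1) (hk0 : 0 ≤ k) (hk3 : k ≤ 3)
    (t x : ℝ) : |NN ν μ k t x| ≤ 5 * (ν + 1) := by
  unfold NN
  have a1 : |ν * Real.tanh t * (Real.sin x * Real.cos x)| ≤ ν := by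
    rw [abs_mul, abs_mul, abs_of_pos (by linarith : 0 < ν)]
    have h2 := abs_tanh_le t
    have h3 := sc_bound x
    have h4 : |Real.tanh t| * |Real.sin x * Real.cos x| ≤ 1 * (1 / 2) :=
      mul_le_mul h2 h3 (abs_nonneg _) (by norm_num)
    nlinarith [abs_nonneg (Real.tanh t), abs_nonneg (Real.sin x * Real.cos x)]
  have a2 : |(μ * k + (2 * ν + 1 - μ) * Real.cos x ^ 2) / (2 * Real.cosh t)| ≤ 2 * ν + 4 := by
    apply cosh_half
    have hcs : Real.cos x ^ 2 ≤ 1 := Real.cos_sq_le_one x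
    have hcs0 : 0 ≤ Real.cos x ^ 2 := sq_nonneg _
    have hμk0 : 0 ≤ μ * k := mul_nonneg h0.le hk0
    have hμk : μ * k ≤ 3 := by nlinarith
    have h5 : 0 ≤ (2 * ν + 1 - μ) * Real.cos x ^ 2 := mul_nonneg (by linarith) hcs0
    have h6 : (2 * ν + 1 - μ) * Real.cos x ^ 2 ≤ (2 * ν + 1 - μ) * 1 :=
      mul_le_mul_of_nonneg_left hcs (by linarith)
    rw [abs_le]
    constructor <;> linarith
  refine (abs_sub _ _).trans ?_
  linarith

lemma HH_bound (hν : 1 ≤ ν) {μ k : ℝ} (h0 : 0 < μ) (h1 : μ < 1) (hk0 : 0 ≤ k) (hk3 : k ≤ 3)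
    (t x : ℝ) : |HH ν μ k t x| ≤ 5 * (ν + 1) / μ := by
  unfold HH
  rw [abs_div, abs_of_pos (DD_pos h0 h1 x)]
  exact div_le_div₀ (by linarith) (NN_bound hν h0 h1 hk0 hk3 t x) h0 (DD_lower h1 x)

lemma HH_diff {μ k k' : ℝ} (h0 : 0 < μ) (h1 : μ < 1) (t x : ℝ) :
    |HH ν μ k t x - HH ν μ k' t x| ≤ |k - k'| := by
  have hD := DD_pos h0 h1 x
  have hc := Real.one_le_cosh t
  have e : HH ν μ k t x - HH ν μ k' t x
      = -(k - k') * (μ / DD μ x) * (1 / (2 * Real.cosh t)) := by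
    unfold HH NN
    field_simp
    ring
  rw [e, abs_mul, abs_mul, abs_neg]
  have b1 : |μ / DD μ x| ≤ 1 := by
    rw [abs_div, abs_of_pos h0, abs_of_pos hD, div_le_one hD]
    exact DD_lower h1 x
  have b2 : |1 / (2 * Real.cosh t)| ≤ 1 := cosh_half t (by norm_num)
  calc |k - k'| * |μ / DD μ x| * |1 / (2 * Real.cosh t)| ≤ |k - k'| * 1 * 1 := by gcongr
    _ = |k - k'| := by ring

lemma hasDerivAt_NN (ν μ k t x : ℝ) :
    HasDerivAt (NN ν μ k t) (ν * Real.tanh t * (Real.cos x ^ 2 - Real.sin x ^ 2)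
      - (-2 * (2 * ν + 1 - μ) * (Real.sin x * Real.cos x)) / (2 * Real.cosh t)) x := by
  have h1 := ((Real.hasDerivAt_sin x).mul (Real.hasDerivAt_cos x)).const_mul (ν * Real.tanh t)
  have h2 := ((((Real.hasDerivAt_cos x).pow 2).const_mul (2 * ν + 1 - μ)).const_add
    (μ * k)).div_const (2 * Real.cosh t)
  refine (h1.sub h2).congr_deriv ?_
  simp
  ring

lemma HH_lipschitz (hν : 1 ≤ ν) {μ k : ℝ} (h0 : 0 < μ) (h1 : μ < 1) (hk0 : 0 ≤ k) (hk3 : k ≤ 3)
    (t : ℝ) : LipschitzWith (Real.toNNReal (20 * (ν + 1) / μ ^ 2)) (HH ν μ k t) := by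
  have hd : ∀ x, HasDerivAt (HH ν μ k t)
      (((ν * Real.tanh t * (Real.cos x ^ 2 - Real.sin x ^ 2)
      - (-2 * (2 * ν + 1 - μ) * (Real.sin x * Real.cos x)) / (2 * Real.cosh t)) * DD μ x
        - NN ν μ k t x * (-2 * (1 - μ) * (Real.sin x * Real.cos x))) / (DD μ x) ^ 2) x :=
    fun x => (hasDerivAt_NN ν μ k t x).div (hasDerivAt_DD μ x) (DD_pos h0 h1 x).ne'
  apply lipschitzWith_of_nnnorm_deriv_le (fun x => (hd x).differentiableAt)
  intro x
  rw [(hd x).deriv]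
  rw [← NNReal.coe_le_coe, coe_nnnorm, Real.norm_eq_abs, Real.coe_toNNReal _ (by positivity)]
  have hD := DD_pos h0 h1 x
  have hDl := DD_lower h1 x
  have hDu := DD_upper h1 x
  rw [abs_div, abs_of_pos (by positivity : 0 < (DD μ x) ^ 2)]
  apply div_le_div₀ (by linarith) _ (by positivity) (pow_le_pow_left₀ h0.le hDl 2)
  have hsc := sc_bound x
  have a1 : |ν * Real.tanh t * (Real.cos x ^ 2 - Real.sin x ^ 2)| ≤ ν := by
    rw [abs_mul, abs_mul, abs_of_pos (by linarith : (0:ℝ) < ν)]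
    have h3 := abs_tanh_le t
    have h4 : |Real.cos x ^ 2 - Real.sin x ^ 2| ≤ 1 := by
      rw [abs_le]
      constructor <;>
        nlinarith [Real.sin_sq_add_cos_sq x, sq_nonneg (Real.sin x), sq_nonneg (Real.cos x)]
    have h5 : |Real.tanh t| * |Real.cos x ^ 2 - Real.sin x ^ 2| ≤ 1 * 1 :=
      mul_le_mul h3 h4 (abs_nonneg _) (by norm_num)
    nlinarith [abs_nonneg (Real.tanh t), abs_nonneg (Real.cos x ^ 2 - Real.sin x ^ 2)]
  have a2 : |(-2 * (2 * ν + 1 - μ) * (Real.sin x * Real.cos x)) / (2 * Real.cosh t)|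
      ≤ 2 * ν + 1 := by
    apply cosh_half
    rw [abs_mul, abs_mul]
    have h6 : |2 * ν + 1 - μ| ≤ 2 * ν + 1 := by rw [abs_of_pos (by linarith)]; linarith
    have h2 : |(-2 : ℝ)| = 2 := by norm_num
    rw [h2]
    have h7 : |2 * ν + 1 - μ| * |Real.sin x * Real.cos x| ≤ (2 * ν + 1) * (1 / 2) :=
      mul_le_mul h6 hsc (abs_nonneg _) (by linarith)
    linarith
  have a3 : |ν * Real.tanh t * (Real.cos x ^ 2 - Real.sin x ^ 2)
      - (-2 * (2 * ν + 1 - μ) * (Real.sin x * Real.cos x)) / (2 * Real.cosh t)|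
      ≤ 5 * (ν + 1) :=
    (abs_sub _ _).trans (by linarith)
  have a4 : |(-2 * (1 - μ) * (Real.sin x * Real.cos x))| ≤ 1 := by
    rw [abs_mul, abs_mul]
    have : |1 - μ| ≤ 1 := by rw [abs_of_pos (by linarith)]; linarith
    have h2 : |(-2 : ℝ)| = 2 := by norm_num
    rw [h2]
    nlinarith [abs_nonneg (Real.sin x * Real.cos x), abs_nonneg (1 - μ)]
  have a5 := NN_bound hν h0 h1 hk0 hk3 t x
  have hn5 : 0 ≤ 5 * (ν + 1) := by linarith
  have a6 : |(ν * Real.tanh t * (Real.cos x ^ 2 - Real.sin x ^ 2)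
      - (-2 * (2 * ν + 1 - μ) * (Real.sin x * Real.cos x)) / (2 * Real.cosh t)) * DD μ x|
      ≤ 5 * (ν + 1) * 1 := by
    rw [abs_mul, abs_of_pos hD]
    exact mul_le_mul a3 hDu hD.le hn5
  have a7 : |NN ν μ k t x * (-2 * (1 - μ) * (Real.sin x * Real.cos x))| ≤ 5 * (ν + 1) * 1 := by
    rw [abs_mul]
    exact mul_le_mul a5 a4 (abs_nonneg _) hn5
  exact (abs_sub _ _).trans (by linarith)

lemma HH_continuous (ν μ k x : ℝ) : Continuous fun t => HH ν μ k t x := by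
  unfold HH NN
  have h1 : Continuous Real.tanh := by
    have : Real.tanh = fun t => Real.sinh t / Real.cosh t := by
      ext t
      exact Real.tanh_eq_sinh_div_cosh t
    rw [this]
    exact Real.continuous_sinh.div Real.continuous_cosh (fun t => (Real.cosh_pos t).ne')
  refine Continuous.div_const ?_ _
  refine ((continuous_const.mul h1).mul continuous_const).sub ?_
  exact continuous_const.div (continuous_const.mul Real.continuous_cosh)
    (fun t => by have := Real.cosh_pos t; positivity)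

/-- The comparison polynomial. -/
noncomputable def PP (ν μ k l y : ℝ) : ℝ :=
  l * (1 + y) * (2 * ν * l * y - μ * k * (1 + y) - (2 * ν + 1 - μ) * y)
    + 2 * (1 + l ^ 2 * y) * (y + μ)

lemma HH_bar {μ k l : ℝ} (h0 : 0 < μ) (hl : 0 < l) (t : ℝ) :
    HH ν μ k t (bar l t) - bar' l t
      = PP ν μ k l ((Real.sinh t / l) ^ 2)
        / (2 * Real.cosh t * l * ((Real.sinh t / l) ^ 2 + μ) * (1 + (Real.sinh t / l) ^ 2)) := by
  set s : ℝ := Real.sinh t / l with hs
  have hsl : Real.sinh t = l * s := by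
    rw [hs]
    field_simp
  have hc := Real.cosh_pos t
  have hcs : Real.cosh t ^ 2 = 1 + l ^ 2 * s ^ 2 := by
    rw [Real.cosh_sq, hsl]
    ring
  have h1s : 0 < 1 + s ^ 2 := by positivity
  have hsin : Real.sin (bar l t) = Real.cos (Real.arctan s) := by
    unfold bar
    rw [Real.sin_pi_div_two_sub]
  have hcos : Real.cos (bar l t) = Real.sin (Real.arctan s) := by
    unfold bar
    rw [Real.cos_pi_div_two_sub]
  have e1 : Real.cos (Real.arctan s) ^ 2 = 1 / (1 + s ^ 2) := Real.cos_sq_arctan s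
  have e2 : Real.sin (Real.arctan s) ^ 2 = s ^ 2 / (1 + s ^ 2) := by
    have := Real.sin_sq_add_cos_sq (Real.arctan s)
    rw [e1] at this
    field_simp at this ⊢
    linarith
  have e3 : Real.cos (Real.arctan s) * Real.sin (Real.arctan s) = s / (1 + s ^ 2) := by
    rw [Real.cos_arctan, Real.sin_arctan]
    have hq := Real.sq_sqrt h1s.le
    have hq0 : 0 < Real.sqrt (1 + s ^ 2) := Real.sqrt_pos.mpr h1s
    field_simp
    rw [hq]
  have hμ : 0 < s ^ 2 + μ := by positivity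
  unfold HH NN DD bar' PP
  have hls : l * s / l = s := by field_simp
  rw [hsin, hcos, e1, e2, e3, Real.tanh_eq_sinh_div_cosh, hsl, hls]
  have : (s ^ 2 / (1 + s ^ 2) + μ * (1 / (1 + s ^ 2))) = (s ^ 2 + μ) / (1 + s ^ 2) := by
    field_simp
  rw [this]
  field_simp
  rw [hcs]
  ring

lemma PP_eq {μ k : ℝ} (hk : 0 < k) (y : ℝ) :
    PP ν μ k (2 / k) y = (2 / k ^ 2) *
      ((k ^ 2 - (2 * ν + 1) * k + 4 * ν - μ * (2 * k ^ 2 - k - 4)) * y
      + (4 * (ν + 1) - (2 * ν + 1) * k - μ * k * (k - 1)) * y ^ 2) := by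
  unfold PP
  field_simp
  ring

lemma den_pos {μ l t : ℝ} (h0 : 0 < μ) (hl : 0 < l) :
    0 < 2 * Real.cosh t * l * ((Real.sinh t / l) ^ 2 + μ) * (1 + (Real.sinh t / l) ^ 2) := by
  have := Real.cosh_pos t
  positivity

/-- The subsolution. -/
lemma bar_sub (hν : 1 ≤ ν) {μ : ℝ} (h0 : 0 < μ) (h1 : μ < 1) (t : ℝ) :
    bar' (2 / (2 + (1 - μ) / (ν + 2))) t
      ≤ HH ν μ (2 + (1 - μ) / (ν + 2)) t (bar (2 / (2 + (1 - μ) / (ν + 2))) t) := by
  set τ : ℝ := 1 / (ν + 2) with hτ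
  have hτ0 : 0 < τ := by rw [hτ]; apply div_pos <;> linarith
  have hτ1 : (ν + 2) * τ = 1 := by rw [hτ]; field_simp
  have hτ2 : τ ≤ 1 / 3 := by
    rw [hτ]
    apply div_le_div_of_nonneg_left <;> linarith
  have hkk : 2 + (1 - μ) / (ν + 2) = 2 + (1 - μ) * τ := by rw [hτ]; ring
  rw [hkk]
  set k : ℝ := 2 + (1 - μ) * τ with hk
  have hkpos : 0 < k := by
    have : 0 < (1 - μ) * τ := mul_pos (by linarith) hτ0
    rw [hk]; linarith
  have hl : 0 < 2 / k := by positivity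
  have h := HH_bar (ν := ν) (μ := μ) (k := k) (l := 2 / k) h0 hl t
  have hντ : ν * τ = 1 - 2 * τ := by linarith
  have hp : 0 ≤ PP ν μ k (2 / k) ((Real.sinh t / (2 / k)) ^ 2) := by
    rw [PP_eq hkpos]
    have f2 : 0 ≤ k ^ 2 - (2 * ν + 1) * k + 4 * ν - μ * (2 * k ^ 2 - k - 4) := by
      have e : k ^ 2 - (2 * ν + 1) * k + 4 * ν - μ * (2 * k ^ 2 - k - 4)
          = (1 - μ) * τ * (7 * (1 - μ) + (1 - μ) * (1 - 2 * μ) * τ)
            + (1 - μ) * 2 * (1 - (ν + 2) * τ) := by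
        rw [hk]; ring
      rw [e, hτ1]
      have e2 : 0 ≤ 7 * (1 - μ) + (1 - μ) * (1 - 2 * μ) * τ := by
        have : 0 ≤ (1 - μ) * (7 + (1 - 2 * μ) * τ) := by
          apply mul_nonneg (by linarith)
          nlinarith
        linarith
      have := mul_nonneg (mul_nonneg (by linarith : (0:ℝ) ≤ 1 - μ) hτ0.le) e2
      linarith
    have f1 : 0 ≤ 4 * (ν + 1) - (2 * ν + 1) * k - μ * k * (k - 1) := by
      have e : 4 * (ν + 1) - (2 * ν + 1) * k - μ * k * (k - 1)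
          = (1 - μ) * τ * ((1 - μ) * (3 - μ * τ)) + (1 - μ) * 2 * (1 - (ν + 2) * τ) := by
        rw [hk]; ring
      rw [e, hτ1]
      have : 0 ≤ (1 - μ) * τ * ((1 - μ) * (3 - μ * τ)) := by
        apply mul_nonneg (mul_nonneg (by linarith) hτ0.le)
        apply mul_nonneg (by linarith)
        nlinarith
      linarith
    positivity
  have := div_nonneg hp (den_pos (μ := μ) (l := 2 / k) (t := t) h0 hl).le
  linarith

/-- The supersolution. -/
lemma bar_super {μ k : ℝ} (h0 : 0 < μ) (hk : 0 < k)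
    (hA : k ^ 2 - (2 * ν + 1) * k + 4 * ν ≤ μ * (2 * k ^ 2 - k - 4))
    (hB : 4 * (ν + 1) - (2 * ν + 1) * k ≤ μ * k * (k - 1)) (t : ℝ) :
    HH ν μ k t (bar (2 / k) t) ≤ bar' (2 / k) t := by
  have hl : 0 < 2 / k := by positivity
  have h := HH_bar (ν := ν) (μ := μ) (k := k) (l := 2 / k) h0 hl t
  have hp : PP ν μ k (2 / k) ((Real.sinh t / (2 / k)) ^ 2) ≤ 0 := by
    rw [PP_eq hk]
    have hy : 0 ≤ (Real.sinh t / (2 / k)) ^ 2 := sq_nonneg _
    have hy2 : 0 ≤ ((Real.sinh t / (2 / k)) ^ 2) ^ 2 := sq_nonneg _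
    apply mul_nonpos_of_nonneg_of_nonpos (by positivity)
    have e1 := mul_nonneg (by linarith : 0 ≤ μ * (2 * k ^ 2 - k - 4)
      - (k ^ 2 - (2 * ν + 1) * k + 4 * ν)) hy
    have e2 := mul_nonneg (by linarith : 0 ≤ μ * k * (k - 1)
      - (4 * (ν + 1) - (2 * ν + 1) * k)) hy2
    nlinarith
  have := div_nonpos_of_nonpos_of_nonneg hp
    (den_pos (μ := μ) (l := 2 / k) (t := t) h0 hl).le
  linarith

lemma bar_large (hν : 1 ≤ ν) {μ k t : ℝ} (h0 : 0 < μ) (h1 : μ < 1) (hk0 : 0 ≤ k) (hk3 : k ≤ 3)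
    (ht : 2 ≤ t) : bar' 2 t ≤ HH ν μ k t (bar 2 t) := by
  have h := HH_bar (ν := ν) (μ := μ) (k := k) (l := 2) h0 (by norm_num) t
  have hs : 2 ≤ Real.sinh t := le_trans ht (Real.self_le_sinh_iff.mpr (by linarith))
  have hy : 1 ≤ (Real.sinh t / 2) ^ 2 := by
    have : 1 ≤ Real.sinh t / 2 := by linarith
    nlinarith
  set y := (Real.sinh t / 2) ^ 2
  have hp : 0 ≤ PP ν μ k 2 y := by
    have e : PP ν μ k 2 y = -2 * μ * (k - 1) + y * (4 * ν + 10 * μ - 4 * μ * k)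
        + y ^ 2 * (4 * ν + 6 + 2 * μ - 2 * μ * k) := by
      unfold PP
      ring
    rw [e]
    have a1 : μ * k ≤ 3 * μ := by nlinarith
    have a2 : 0 ≤ μ * k := mul_nonneg h0.le hk0
    have b1 : 0 ≤ 4 * ν + 10 * μ - 4 * μ * k := by nlinarith
    have b2 : 4 ≤ 4 * ν + 6 + 2 * μ - 2 * μ * k := by nlinarith
    have c1 : 0 ≤ y * (4 * ν + 10 * μ - 4 * μ * k) := mul_nonneg (by linarith) b1
    have hyy : 1 ≤ y ^ 2 := by nlinarith
    have c2 : 4 ≤ y ^ 2 * (4 * ν + 6 + 2 * μ - 2 * μ * k) := by nlinarith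
    nlinarith
  have := div_nonneg hp (den_pos (μ := μ) (l := 2) (t := t) h0 (by norm_num)).le
  linarith

/-- Existence of the profile of the homogeneous solution. -/
theorem exists_profile (hν : 1 ≤ ν) {μ k2 : ℝ} (h0 : 0 < μ) (h1 : μ < 1)
    (hk12 : 2 + (1 - μ) / (ν + 2) ≤ k2) (hk23 : k2 ≤ 3)
    (hA : k2 ^ 2 - (2 * ν + 1) * k2 + 4 * ν ≤ μ * (2 * k2 ^ 2 - k2 - 4))
    (hB : 4 * (ν + 1) - (2 * ν + 1) * k2 ≤ μ * k2 * (k2 - 1)) :
    ∃ (k : ℝ) (P : ℝ → ℝ), 2 + (1 - μ) / (ν + 2) ≤ k ∧ k ≤ k2 ∧ P 0 = Real.pi / 2 ∧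
      (∀ t, HasDerivAt P (HH ν μ k t (P t)) t) ∧ (∀ t, 0 ≤ t → 0 < P t) ∧
      (∀ t, 2 ≤ t → P t ≤ bar 2 t) := by
  have hν2 : 0 < ν + 2 := by linarith
  have sol : ∀ k : ℝ, 0 ≤ k → k ≤ 3 → ∃ α : ℝ → ℝ, α 0 = Real.pi / 2 ∧
      ∀ t, HasDerivAt α (HH ν μ k t (α t)) t := by
    intro k hk0 hk3
    refine exists_global (HH ν μ k) (HH_continuous ν μ k) (Real.toNNReal (20 * (ν + 1) / μ ^ 2))
      (Real.toNNReal (5 * (ν + 1) / μ)) (HH_lipschitz hν h0 h1 hk0 hk3) ?_ _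
    intro t x
    rw [Real.coe_toNNReal _ (by positivity)]
    exact HH_bound hν h0 h1 hk0 hk3 t x
  choose! Ψ hΨ0 hΨ using sol
  set k1 : ℝ := 2 + (1 - μ) / (ν + 2) with hk1
  have hk1a : 2 < k1 := by
    have : 0 < (1 - μ) / (ν + 2) := div_pos (by linarith) hν2
    rw [hk1]; linarith
  -- continuous dependence
  have dep : ∀ T : ℝ, 0 ≤ T → ∃ C : ℝ, 0 < C ∧ ∀ k k', 0 ≤ k → k ≤ 3 → 0 ≤ k' → k' ≤ 3 →
      ∀ t ∈ Icc 0 T, |Ψ k t - Ψ k' t| ≤ C * |k - k'| := by
    intro T hT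
    have hKpos : 0 < 20 * (ν + 1) / μ ^ 2 := by positivity
    refine ⟨Real.exp (20 * (ν + 1) / μ ^ 2 * T) / (20 * (ν + 1) / μ ^ 2), by positivity, ?_⟩
    intro k k' hk0 hk3 hk0' hk3' t ht
    have h := dist_le_of_approx_trajectories_ODE (v := HH ν μ k)
      (K := Real.toNNReal (20 * (ν + 1) / μ ^ 2))
      (f := Ψ k) (g := Ψ k') (f' := fun t => HH ν μ k t (Ψ k t))
      (g' := fun t => HH ν μ k' t (Ψ k' t)) (a := 0) (b := T) (εf := 0) (εg := |k - k'|) (δ := 0)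
      (HH_lipschitz hν h0 h1 hk0 hk3)
      (fun t _ => (hΨ k hk0 hk3 t).continuousAt.continuousWithinAt)
      (fun t _ => (hΨ k hk0 hk3 t).hasDerivWithinAt)
      (fun t _ => by simp)
      (fun t _ => (hΨ k' hk0' hk3' t).continuousAt.continuousWithinAt)
      (fun t _ => (hΨ k' hk0' hk3' t).hasDerivWithinAt)
      (fun t _ => by
        rw [Real.dist_eq, abs_sub_comm]
        exact HH_diff h0 h1 t _)
      (by rw [hΨ0 k hk0 hk3, hΨ0 k' hk0' hk3']; simp) t ht
    rw [Real.dist_eq, gronwallBound_of_K_ne_0 (by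
      rw [Real.coe_toNNReal _ hKpos.le]; exact hKpos.ne'), Real.coe_toNNReal _ hKpos.le] at h
    simp only [zero_mul, zero_add, sub_zero] at h
    have h2 : Real.exp (20 * (ν + 1) / μ ^ 2 * t) ≤ Real.exp (20 * (ν + 1) / μ ^ 2 * T) := by
      apply Real.exp_le_exp.mpr
      exact mul_le_mul_of_nonneg_left ht.2 hKpos.le
    calc |Ψ k t - Ψ k' t| ≤ |k - k'| / (20 * (ν + 1) / μ ^ 2)
            * (Real.exp (20 * (ν + 1) / μ ^ 2 * t) - 1) := h
      _ ≤ |k - k'| / (20 * (ν + 1) / μ ^ 2) * Real.exp (20 * (ν + 1) / μ ^ 2 * T) := by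
          apply mul_le_mul_of_nonneg_left (by linarith) (by positivity)
      _ = Real.exp (20 * (ν + 1) / μ ^ 2 * T) / (20 * (ν + 1) / μ ^ 2) * |k - k'| := by ring
  -- strict positivity
  have pos : ∀ k, 0 ≤ k → k ≤ 3 → (∀ t, 0 ≤ t → 0 ≤ Ψ k t) → ∀ t, 0 ≤ t → 0 < Ψ k t := by
    intro k hk0 hk3 hnn t ht
    rcases (hnn t ht).lt_or_eq with h | h
    · exact h
    · exfalso
      have hd := hΨ k hk0 hk3 t
      rw [← h] at hd
      have hneg : HH ν μ k t 0 < 0 := by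
        unfold HH NN DD
        simp only [Real.sin_zero, Real.cos_zero]
        have hc := Real.cosh_pos t
        have : 0 < (μ * k + (2 * ν + 1 - μ) * 1 ^ 2) / (2 * Real.cosh t) := by
          apply div_pos _ (by positivity)
          nlinarith [mul_nonneg h0.le hk0]
        have h2 : ν * Real.tanh t * (0 * 1)
            - (μ * k + (2 * ν + 1 - μ) * 1 ^ 2) / (2 * Real.cosh t) < 0 := by
          linarith
        apply div_neg_of_neg_of_pos h2
        norm_num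
      have hs := (hasDerivAt_iff_tendsto_slope.mp hd).mono_left
        (nhdsWithin_mono t (fun x (hx : x ∈ Ioi t) => ne_of_gt hx))
      have : 0 ≤ HH ν μ k t 0 := by
        apply ge_of_tendsto hs
        filter_upwards [self_mem_nhdsWithin] with x hx
        rw [slope_def_field]
        apply div_nonneg _ (by linarith [mem_Ioi.mp hx])
        rw [← h]
        have := hnn x (by linarith [mem_Ioi.mp hx])
        linarith
      linarith
  -- robustness above the barrier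
  have robust : ∀ k, 0 ≤ k → k ≤ 3 → (∀ t, 0 ≤ t → 0 < Ψ k t) → ∀ t0, 2 ≤ t0 →
      bar 2 t0 < Ψ k t0 → ∃ δ, 0 < δ ∧ ∀ k', 0 ≤ k' → k' ≤ 3 → |k' - k| < δ →
        ∀ t, 0 ≤ t → 0 ≤ Ψ k' t := by
    intro k hk0 hk3 hp t0 ht0 hb
    obtain ⟨C, hC, hdep⟩ := dep t0 (by linarith)
    obtain ⟨tm, htm, hmin⟩ := (isCompact_Icc (a := (0:ℝ)) (b := t0)).exists_isMinOn
      ⟨0, by simp; linarith⟩
      (fun t _ => (hΨ k hk0 hk3 t).continuousAt.continuousWithinAt : ContinuousOn (Ψ k) (Icc 0 t0))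
    have hm : 0 < Ψ k tm := hp tm htm.1
    refine ⟨min (Ψ k tm) (Ψ k t0 - bar 2 t0) / C, div_pos (lt_min hm (by linarith)) hC, ?_⟩
    intro k' hk0' hk3' hkk
    rw [lt_div_iff₀ hC] at hkk
    have hkk1 : C * |k' - k| < Ψ k tm := by
      rw [mul_comm]
      exact lt_of_lt_of_le hkk (min_le_left _ _)
    have hkk2 : C * |k' - k| < Ψ k t0 - bar 2 t0 := by
      rw [mul_comm]
      exact lt_of_lt_of_le hkk (min_le_right _ _)
    have hclose : ∀ t ∈ Icc 0 t0, |Ψ k' t - Ψ k t| ≤ C * |k' - k| :=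
      fun t ht => hdep k' k hk0' hk3' hk0 hk3 t ht
    intro t ht
    rcases le_total t t0 with htt | htt
    · have h2 := hclose t ⟨ht, htt⟩
      have h3 : Ψ k tm ≤ Ψ k t := hmin ⟨ht, htt⟩
      rw [abs_le] at h2
      linarith [h2.1]
    · have h2 := hclose t0 ⟨by linarith, le_rfl⟩
      rw [abs_le] at h2
      have h3 : bar 2 t0 ≤ Ψ k' t0 := by linarith [h2.1]
      have h4 := comparison (HH ν μ k') (Real.toNNReal (20 * (ν + 1) / μ ^ 2))
        (HH_lipschitz hν h0 h1 hk0' hk3') (z := bar 2) (z' := bar' 2) (w := Ψ k')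
        (w' := fun t => HH ν μ k' t (Ψ k' t)) (a := t0)
        (fun t _ => hasDerivAt_bar 2 t) (fun t _ => hΨ k' hk0' hk3' t)
        (fun t ht => bar_large hν h0 h1 hk0' hk3' (by linarith)) (fun t _ => le_rfl) h3 t htt
      have := bar_pos 2 t
      linarith
  -- the good parameter
  set A : Set ℝ := {k | k1 ≤ k ∧ k ≤ k2 ∧ ∃ t, 0 ≤ t ∧ Ψ k t < 0} with hAdef
  have hk1A : k1 ∉ A := by
    rintro ⟨_, _, t, ht, hneg⟩
    have h4 := comparison (HH ν μ k1) (Real.toNNReal (20 * (ν + 1) / μ ^ 2))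
      (HH_lipschitz hν h0 h1 (by linarith) (by linarith)) (z := bar (2 / k1))
      (z' := bar' (2 / k1))
      (w := Ψ k1) (w' := fun t => HH ν μ k1 t (Ψ k1 t)) (a := 0)
      (fun t _ => hasDerivAt_bar _ t) (fun t _ => hΨ k1 (by linarith) (by linarith) t)
      (fun t _ => bar_sub hν h0 h1 t) (fun t _ => le_rfl)
      (by rw [bar_zero, hΨ0 k1 (by linarith) (by linarith)]) t ht
    have := bar_pos (2 / k1) t
    linarith
  have hgood : ∃ k, k1 ≤ k ∧ k ≤ k2 ∧ (∀ t, 0 ≤ t → 0 < Ψ k t) ∧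
      ∀ t, 2 ≤ t → Ψ k t ≤ bar 2 t := by
    rcases A.eq_empty_or_nonempty with hemp | hne
    · have hnn : ∀ t, 0 ≤ t → 0 ≤ Ψ k2 t := by
        intro t ht
        by_contra hcon
        push Not at hcon
        have : k2 ∈ A := ⟨hk12, le_rfl, t, ht, hcon⟩
        rw [hemp] at this
        exact this
      refine ⟨k2, hk12, le_rfl, pos k2 (by linarith) hk23 hnn, ?_⟩
      intro t ht
      have h4 := comparison (HH ν μ k2) (Real.toNNReal (20 * (ν + 1) / μ ^ 2))
        (HH_lipschitz hν h0 h1 (by linarith) hk23) (z := Ψ k2)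
        (z' := fun t => HH ν μ k2 t (Ψ k2 t)) (w := bar (2 / k2)) (w' := bar' (2 / k2)) (a := 0)
        (fun t _ => hΨ k2 (by linarith) hk23 t) (fun t _ => hasDerivAt_bar _ t)
        (fun t _ => le_rfl) (fun t _ => bar_super h0 (by linarith) hA hB t)
        (by rw [bar_zero, hΨ0 k2 (by linarith) hk23]) t (by linarith)
      refine h4.trans (bar_mono (by apply div_pos <;> linarith) ?_ (by linarith))
      rw [div_le_iff₀ (by linarith)]
      linarith
    · have hbdd : BddBelow A := ⟨k1, fun k hk => hk.1⟩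
      set ks : ℝ := sInf A with hks
      have hks1 : k1 ≤ ks := le_csInf hne (fun k hk => hk.1)
      have hks2 : ks ≤ k2 := by
        obtain ⟨k, hk⟩ := hne
        exact (csInf_le hbdd hk).trans hk.2.1
      have hks3 : ks ≤ 3 := hks2.trans hk23
      have hksA : ks ∉ A := by
        rintro hmem
        obtain ⟨_, _, t, ht, hneg⟩ := hmem
        have hlt : k1 < ks := by
          rcases hks1.lt_or_eq with h | h
          · exact h
          · exfalso
            apply hk1A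
            rw [h]
            exact ⟨hks1, hks2, t, ht, hneg⟩
        obtain ⟨C, hC, hdep⟩ := dep t ht
        set ε : ℝ := min (ks - k1) (-(Ψ ks t) / (2 * C)) with hε
        have hεpos : 0 < ε := lt_min (by linarith) (div_pos (by linarith) (by positivity))
        have hε1 : ε ≤ ks - k1 := min_le_left _ _
        have hε2 : C * ε ≤ -(Ψ ks t) / 2 := by
          have : ε ≤ -(Ψ ks t) / (2 * C) := min_le_right _ _
          rw [le_div_iff₀ (by positivity)] at this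
          linarith
        have h2 := hdep (ks - ε) ks (by linarith) (by linarith) (by linarith) hks3 t ⟨ht, le_rfl⟩
        have h3 : |ks - ε - ks| = ε := by
          rw [show ks - ε - ks = -ε by ring, abs_neg, abs_of_pos hεpos]
        rw [h3, abs_le] at h2
        have : ks - ε ∈ A := ⟨by linarith, by linarith, t, ht, by linarith [h2.2]⟩
        have := csInf_le hbdd this
        linarith
      have hnn : ∀ t, 0 ≤ t → 0 ≤ Ψ ks t := by
        intro t ht
        by_contra hcon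
        push Not at hcon
        exact hksA ⟨hks1, hks2, t, ht, hcon⟩
      have hpos := pos ks (by linarith) hks3 hnn
      refine ⟨ks, hks1, hks2, hpos, ?_⟩
      intro t ht
      by_contra hcon
      push Not at hcon
      obtain ⟨δ, hδ, hrob⟩ := robust ks (by linarith) hks3 hpos t ht hcon
      obtain ⟨k', hk', hlt⟩ := exists_lt_of_csInf_lt hne (show sInf A < ks + δ by linarith)
      have hge : ks ≤ k' := csInf_le hbdd hk'
      obtain ⟨a1, a2, s, hs, hneg⟩ := hk'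
      have := hrob k' (by linarith) (by linarith) (by rw [abs_of_nonneg (by linarith)]; linarith)
        s hs
      linarith
  obtain ⟨k, hka, hkb, hp, hb⟩ := hgood
  exact ⟨k, Ψ k, hka, hkb, hΨ0 k (by linarith) (by linarith),
    hΨ k (by linarith) (by linarith), hp, hb⟩

end Pool.Agent.Y310.SC.Ode
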