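import Pool.Agent.Helper749.ConeFun
import Pool.Agent.Y310.SC.Ode

/-!
The profile of the homogeneous `p`-harmonic functions on `R^(ν+1) x R^(ν+1)`,
generalising `Pool.Agent.Helper749.ConeFun` (which is the case `ν = 3`).
-/

set_option autoImplicit false

namespace Pool.Agent.Y310.SC.Fun

open Set Filter Topology NNReal Metric
open Pool.Agent.Helper749.ConeOde (exists_global comparison DD DD_lower DD_upper DD_pos
  abs_tanh_le sc_bound cosh_half hasDerivAt_DD bar bar' hasDerivAt_bar bar_pos bar_zero bar_mono)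
open Pool.Agent.Helper749.ConeFun (hasDerivAt_tanh continuous_tanh tanh_mono lip_tanh exists_limit
  exists_limit')
open Pool.Agent.Y310.SC.Ode

variable {ν : ℝ}

lemma HH_symm (ν μ k t x : ℝ) : HH ν μ k (-t) (Real.pi - x) = HH ν μ k t x := by
  unfold HH NN DD
  rw [Real.sin_pi_sub, Real.cos_pi_sub, Real.tanh_neg, Real.cosh_neg]
  ring_nf

/-- The logarithmic derivative of `ρ`. -/
noncomputable def LL (ν μ k t x : ℝ) : ℝ :=
  Real.sin x * (((1 - μ) * k - (2 * ν + 1) + μ) * Real.cos x / (2 * Real.cosh t)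
    + ν * Real.tanh t * Real.sin x) / DD μ x

lemma HH_cont {μ k : ℝ} (h0 : 0 < μ) (h1 : μ < 1) {P : ℝ → ℝ} (hP : Continuous P) :
    Continuous fun t => HH ν μ k t (P t) := by
  have hc := Real.continuous_cosh
  have hs := Real.continuous_sin.comp hP
  have hco := Real.continuous_cos.comp hP
  unfold HH NN DD
  refine Continuous.div ?_ ?_ ?_
  · refine ((continuous_const.mul continuous_tanh).mul (hs.mul hco)).sub ?_
    refine Continuous.div ?_ (continuous_const.mul hc) ?_
    · exact continuous_const.add (continuous_const.mul (hco.pow 2))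
    · intro t
      have := Real.cosh_pos t
      positivity
  · exact (hco.pow 2).add (continuous_const.mul (hs.pow 2))
  · intro t
    exact (DD_pos h0 h1 (P t)).ne'

lemma LL_cont {μ k : ℝ} (h0 : 0 < μ) (h1 : μ < 1) {P : ℝ → ℝ} (hP : Continuous P) :
    Continuous fun t => LL ν μ k t (P t) := by
  have hc := Real.continuous_cosh
  have hs := Real.continuous_sin.comp hP
  have hco := Real.continuous_cos.comp hP
  unfold LL DD
  refine Continuous.div ?_ ?_ ?_
  · refine hs.mul (Continuous.add ?_ ((continuous_const.mul continuous_tanh).mul hs))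
    refine Continuous.div (continuous_const.mul hco) (continuous_const.mul hc) ?_
    intro t
    have := Real.cosh_pos t
    positivity
  · exact (hco.pow 2).add (continuous_const.mul (hs.pow 2))
  · intro t
    exact (DD_pos h0 h1 (P t)).ne'

lemma id_V {μ k : ℝ} (h0 : 0 < μ) (h1 : μ < 1) (t x : ℝ) :
    LL ν μ k t x * Real.cos x - Real.sin x * HH ν μ k t x = k * Real.sin x / (2 * Real.cosh t) := by
  have hD := DD_pos h0 h1 x
  have hc := Real.cosh_pos t
  unfold LL HH NN
  have e : Real.cos x ^ 2 = DD μ x - μ * Real.sin x ^ 2 := by unfold DD; ring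
  have e2 : DD μ x = 1 - (1 - μ) * Real.sin x ^ 2 := by
    unfold DD
    have := Real.sin_sq_add_cos_sq x
    linear_combination this
  field_simp
  rw [e2]
  have := Real.sin_sq_add_cos_sq x
  have e3 : Real.cos x ^ 2 = 1 - Real.sin x ^ 2 := by linarith
  linear_combination (Real.sin x * (k - μ * k)) * e3

lemma id_B {μ k : ℝ} (h0 : 0 < μ) (h1 : μ < 1) (t x : ℝ) :
    μ * LL ν μ k t x * Real.sin x + Real.cos x * HH ν μ k t x
      = ν * Real.tanh t * Real.sin x - (μ * k + 2 * ν + 1 - μ) * Real.cos x / (2 * Real.cosh t) := by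
  have hD := DD_pos h0 h1 x
  have hc := Real.cosh_pos t
  unfold LL HH NN
  have e2 : DD μ x = 1 - (1 - μ) * Real.sin x ^ 2 := by
    unfold DD
    have := Real.sin_sq_add_cos_sq x
    linear_combination this
  field_simp
  rw [e2]
  have e3 : Real.cos x ^ 2 = 1 - Real.sin x ^ 2 := by
    have := Real.sin_sq_add_cos_sq x
    linarith
  linear_combination (2 * ν * Real.sin x * Real.cosh t * Real.tanh t
    + (μ - (2 * ν + 1)) * Real.cos x) * e3

/-- All the one-variable information on the profile. -/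
theorem profile (hν : 1 ≤ ν) {μ k2 : ℝ} (h0 : 0 < μ) (h1 : μ < 1)
    (hk12 : 2 + (1 - μ) / (ν + 2) ≤ k2) (hk23 : k2 ≤ 3)
    (hA : k2 ^ 2 - (2 * ν + 1) * k2 + 4 * ν ≤ μ * (2 * k2 ^ 2 - k2 - 4))
    (hB : 4 * (ν + 1) - (2 * ν + 1) * k2 ≤ μ * k2 * (k2 - 1)) :
    ∃ (k C Vp Vm : ℝ) (P ℓ : ℝ → ℝ), 2 + (1 - μ) / (ν + 2) ≤ k ∧ k ≤ k2 ∧ 0 < C ∧ 0 < Vp ∧
      (∀ t, HasDerivAt P (HH ν μ k t (P t)) t) ∧
      (∀ t, HasDerivAt ℓ (LL ν μ k t (P t)) t) ∧
      (∀ t, |ℓ t| ≤ C) ∧
      (∀ t, |Real.sin (P t)| * Real.cosh t ≤ C) ∧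
      (∀ t, |Real.exp (ℓ t) * Real.cos (P t) / k - Vp| ≤ C * (1 - Real.tanh t)) ∧
      (∀ t, |Real.exp (ℓ t) * Real.cos (P t) / k - Vm| ≤ C * (1 + Real.tanh t)) ∧
      (∀ t, HasDerivAt (fun t => Real.exp (ℓ t) * Real.cos (P t) / k)
        (Real.exp (ℓ t) * Real.sin (P t) / (2 * Real.cosh t)) t) := by
  obtain ⟨k, P, hka, hkb, hP0, hP, hPpos, hPbar⟩ := exists_profile hν h0 h1 hk12 hk23 hA hB
  have hk2 : 2 < k := by
    have : 0 < (1 - μ) / (ν + 2) := div_pos (by linarith) (by linarith)
    linarith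
  have hk3 : k ≤ 3 := hkb.trans hk23
  have hPc : Continuous P := continuous_iff_continuousAt.mpr fun t => (hP t).continuousAt
  -- symmetry
  have hsym : ∀ t, P (-t) = Real.pi - P t := by
    have h : (fun t => Real.pi - P (-t)) = P := by
      refine ODE_solution_unique_univ (v := HH ν μ k) (K := Real.toNNReal (20 * (ν + 1) / μ ^ 2))
        (s := fun _ => univ) (t₀ := 0)
        (fun t => (HH_lipschitz hν h0 h1 (by linarith) hk3 t).lipschitzOnWith) ?_ ?_ ?_
      · intro t
        refine ⟨?_, trivial⟩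
        have h2 := ((hP (-t)).comp t (hasDerivAt_neg t)).const_sub Real.pi
        refine h2.congr_deriv ?_
        have h3 := HH_symm ν μ k (-t) (P (-t))
        rw [neg_neg] at h3
        rw [h3]
        ring
      · intro t
        exact ⟨hP t, trivial⟩
      · simp only [neg_zero, hP0]
        ring
    intro t
    have : Real.pi - P (-t) = P t := congrFun h t
    linarith
  -- decay of the sine for large t
  have hbar : ∀ t, 2 ≤ t → 0 < P t ∧ P t < Real.pi / 2 ∧ Real.sin (P t) * Real.cosh t ≤ 2 := by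
    intro t ht
    have hp := hPpos t (by linarith)
    have hb := hPbar t ht
    have hs : 0 < Real.sinh t := Real.sinh_pos_iff.mpr (by linarith)
    have hc := Real.cosh_pos t
    have hb2 : bar 2 t < Real.pi / 2 := by
      unfold bar
      have : 0 < Real.arctan (Real.sinh t / 2) := Real.arctan_pos.mpr (by positivity)
      linarith
    refine ⟨hp, by linarith, ?_⟩
    have hsin : Real.sin (P t) ≤ Real.sin (bar 2 t) :=
      Real.sin_le_sin_of_le_of_le_pi_div_two (by linarith) hb2.le hb
    have e : Real.sin (bar 2 t) = 1 / Real.sqrt (1 + (Real.sinh t / 2) ^ 2) := by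
      unfold bar
      rw [Real.sin_pi_div_two_sub, Real.cos_arctan]
    have h3 : Real.cosh t / 2 ≤ Real.sqrt (1 + (Real.sinh t / 2) ^ 2) := by
      apply Real.le_sqrt_of_sq_le
      have := Real.cosh_sq t
      nlinarith
    have h4 : Real.sin (bar 2 t) ≤ 2 / Real.cosh t := by
      rw [e, div_le_div_iff₀ (by positivity) hc]
      linarith
    calc Real.sin (P t) * Real.cosh t ≤ 2 / Real.cosh t * Real.cosh t :=
          mul_le_mul_of_nonneg_right (hsin.trans h4) hc.le
      _ = 2 := by field_simp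
  have hc2 : 2 ≤ Real.cosh 2 := by
    have h1 : (2 : ℝ) ≤ Real.sinh 2 := Real.self_le_sinh_iff.mpr (by norm_num)
    have h2 := Real.sinh_lt_cosh 2
    linarith
  have hsinb : ∀ t, |Real.sin (P t)| * Real.cosh t ≤ Real.cosh 2 := by
    have key : ∀ t, 0 ≤ t → |Real.sin (P t)| * Real.cosh t ≤ Real.cosh 2 := by
      intro t ht
      rcases le_total 2 t with h | h
      · obtain ⟨a, b, c⟩ := hbar t h
        have : 0 < Real.sin (P t) :=
          Real.sin_pos_of_pos_of_lt_pi a (by linarith [Real.pi_pos])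
        rw [abs_of_pos this]
        linarith
      · have h5 : Real.cosh t ≤ Real.cosh 2 := by
          rw [Real.cosh_le_cosh, abs_of_nonneg ht, abs_of_pos (by norm_num : (0:ℝ) < 2)]
          exact h
        have h6 := Real.abs_sin_le_one (P t)
        have h7 := Real.cosh_pos t
        calc |Real.sin (P t)| * Real.cosh t ≤ 1 * Real.cosh t :=
              mul_le_mul_of_nonneg_right h6 h7.le
          _ ≤ Real.cosh 2 := by linarith
    intro t
    rcases le_total 0 t with h | h
    · exact key t h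
    · have h2 := key (-t) (by linarith)
      rw [hsym t, Real.sin_pi_sub, Real.cosh_neg] at h2
      exact h2
  -- bound on LL
  set C0 : ℝ := Real.cosh 2 with hC0
  have hLLb : ∀ t, |LL ν μ k t (P t)| ≤ ((10 * (ν + 1)) * C0 ^ 2 / μ) / Real.cosh t ^ 2 := by
    intro t
    have hD := DD_pos h0 h1 (P t)
    have hDl := DD_lower h1 (P t)
    have hc := Real.cosh_pos t
    have hc1 := Real.one_le_cosh t
    have hs := hsinb t
    have hT := abs_tanh_le t
    have hco := Real.abs_cos_le_one (P t)
    have hs1 : |Real.sin (P t)| ≤ C0 / Real.cosh t := by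
      rw [le_div_iff₀ hc]
      exact hs
    unfold LL
    rw [abs_div, abs_of_pos hD, abs_mul]
    have b1 : |((1 - μ) * k - (2 * ν + 1) + μ) * Real.cos (P t) / (2 * Real.cosh t)
        + ν * Real.tanh t * Real.sin (P t)| ≤ (10 * (ν + 1)) * C0 / Real.cosh t := by
      have c1 : |((1 - μ) * k - (2 * ν + 1) + μ) * Real.cos (P t) / (2 * Real.cosh t)|
          ≤ (2 * ν + 1) / Real.cosh t := by
        rw [abs_div, abs_of_pos (by positivity : 0 < 2 * Real.cosh t), abs_mul,
          div_le_div_iff₀ (by positivity) hc]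
        have d1 : |(1 - μ) * k - (2 * ν + 1) + μ| ≤ 2 * ν + 1 := by
          have d3 : 0 < (1 - μ) * k := mul_pos (sub_pos.mpr h1) (by linarith)
          rw [abs_le]
          constructor <;> nlinarith
        have d2 : |(1 - μ) * k - (2 * ν + 1) + μ| * |Real.cos (P t)| ≤ (2 * ν + 1) * 1 :=
          mul_le_mul d1 hco (abs_nonneg _) (by linarith)
        nlinarith
      have c2 : |ν * Real.tanh t * Real.sin (P t)| ≤ ν * (C0 / Real.cosh t) := by
        rw [abs_mul, abs_mul, abs_of_pos (by linarith : (0:ℝ) < ν)]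
        have d2 : |Real.tanh t| * |Real.sin (P t)| ≤ 1 * (C0 / Real.cosh t) :=
          mul_le_mul hT hs1 (abs_nonneg _) (by norm_num)
        nlinarith
      have c3 : (2 * ν + 1) / Real.cosh t + ν * (C0 / Real.cosh t)
          ≤ (10 * (ν + 1)) * C0 / Real.cosh t := by
        rw [← mul_div_assoc, ← add_div]
        apply div_le_div_of_nonneg_right _ hc.le
        nlinarith
      exact (abs_add_le _ _).trans ((add_le_add c1 c2).trans c3)
    have b2 : |Real.sin (P t)| * |((1 - μ) * k - (2 * ν + 1) + μ) * Real.cos (P t) / (2 * Real.cosh t)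
        + ν * Real.tanh t * Real.sin (P t)| ≤ (C0 / Real.cosh t) * ((10 * (ν + 1)) * C0 / Real.cosh t) :=
      mul_le_mul hs1 b1 (abs_nonneg _) (by positivity)
    calc _ ≤ (C0 / Real.cosh t) * ((10 * (ν + 1)) * C0 / Real.cosh t) / μ :=
          div_le_div₀ (by positivity) b2 h0 hDl
      _ = ((10 * (ν + 1)) * C0 ^ 2 / μ) / Real.cosh t ^ 2 := by
          field_simp
  set C1 : ℝ := (10 * (ν + 1)) * C0 ^ 2 / μ with hC1
  have hC1pos : 0 < C1 := by positivity
  have hLLc := LL_cont (ν := ν) (k := k) h0 h1 hPc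
  set ℓ : ℝ → ℝ := fun t => ∫ s in (0:ℝ)..t, LL ν μ k s (P s) with hℓ
  have hℓd : ∀ t, HasDerivAt ℓ (LL ν μ k t (P t)) t := by
    intro t
    exact intervalIntegral.integral_hasDerivAt_right (hLLc.intervalIntegrable _ _)
      (hLLc.stronglyMeasurableAtFilter _ _) hLLc.continuousAt
  have hℓ0 : ℓ 0 = 0 := by simp [hℓ]
  have hℓb : ∀ t, |ℓ t| ≤ C1 := by
    intro t
    rcases le_total 0 t with h | h
    · have := lip_tanh hℓd hLLb h
      rw [hℓ0, sub_zero, Real.tanh_zero, sub_zero] at this
      have h2 := (Real.tanh_lt_one t).le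
      nlinarith
    · have := lip_tanh hℓd hLLb h
      rw [hℓ0, zero_sub, abs_neg, Real.tanh_zero, zero_sub] at this
      have h2 := (Real.neg_one_lt_tanh t).le
      nlinarith
  have hVd : ∀ t, HasDerivAt (fun t => Real.exp (ℓ t) * Real.cos (P t) / k)
        (Real.exp (ℓ t) * Real.sin (P t) / (2 * Real.cosh t)) t := by
    intro t
    have hkpos : 0 < k := by linarith
    have hc := Real.cosh_pos t
    refine (((hℓd t).exp.mul (hP t).cos).div_const k).congr_deriv ?_
    have := id_V (ν := ν) (k := k) h0 h1 t (P t)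
    have e : Real.exp (ℓ t) * LL ν μ k t (P t) * Real.cos (P t)
        + Real.exp (ℓ t) * (-Real.sin (P t) * HH ν μ k t (P t))
        = Real.exp (ℓ t) * (LL ν μ k t (P t) * Real.cos (P t) - Real.sin (P t) * HH ν μ k t (P t)) := by
      ring
    rw [e, this]
    field_simp
  set C2 : ℝ := Real.exp C1 * C0 with hC2
  have hC2pos : 0 < C2 := by positivity
  have hVb : ∀ t, |Real.exp (ℓ t) * Real.sin (P t) / (2 * Real.cosh t)|
      ≤ C2 / Real.cosh t ^ 2 := by
    intro t
    have hc := Real.cosh_pos t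
    rw [abs_div, abs_mul, abs_of_pos (Real.exp_pos _),
      abs_of_pos (by positivity : 0 < 2 * Real.cosh t), div_le_div_iff₀ (by positivity)
        (by positivity)]
    have h3 : Real.exp (ℓ t) ≤ Real.exp C1 :=
      Real.exp_le_exp.mpr ((le_abs_self _).trans (hℓb t))
    have h4 : Real.exp (ℓ t) * (|Real.sin (P t)| * Real.cosh t) ≤ Real.exp C1 * C0 :=
      mul_le_mul h3 (hsinb t) (by positivity) (by positivity)
    have h5 : 0 ≤ Real.exp C1 * C0 * Real.cosh t := by positivity
    calc Real.exp (ℓ t) * |Real.sin (P t)| * Real.cosh t ^ 2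
        = (Real.exp (ℓ t) * (|Real.sin (P t)| * Real.cosh t)) * Real.cosh t := by ring
      _ ≤ (Real.exp C1 * C0) * Real.cosh t := mul_le_mul_of_nonneg_right h4 hc.le
      _ ≤ C2 * (2 * Real.cosh t) := by
        rw [hC2]
        linarith
  obtain ⟨Vp, hVp, hVpb⟩ := exists_limit hVd hVb
  obtain ⟨Vm, hVmb⟩ := exists_limit' hVd hVb
  have hVppos : 0 < Vp := by
    have hV2 : 0 < Real.exp (ℓ 2) * Real.cos (P 2) / k := by
      obtain ⟨a, b, c⟩ := hbar 2 le_rfl
      have : 0 < Real.cos (P 2) := Real.cos_pos_of_mem_Ioo ⟨by linarith, b⟩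
      have hkpos : 0 < k := by linarith
      positivity
    refine lt_of_lt_of_le hV2 ?_
    apply ge_of_tendsto hVp
    filter_upwards [eventually_ge_atTop 2] with t ht
    have hm : MonotoneOn (fun t => Real.exp (ℓ t) * Real.cos (P t) / k) (Ici 2) := by
      apply monotoneOn_of_deriv_nonneg (convex_Ici 2)
      · exact fun t _ => (hVd t).continuousAt.continuousWithinAt
      · exact fun t _ => (hVd t).differentiableAt.differentiableWithinAt
      · intro t ht
        rw [interior_Ici] at ht
        rw [(hVd t).deriv]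
        obtain ⟨a, b, c⟩ := hbar t (le_of_lt ht)
        have : 0 < Real.sin (P t) := Real.sin_pos_of_pos_of_lt_pi a (by linarith [Real.pi_pos])
        have hc := Real.cosh_pos t
        positivity
    exact hm (mem_Ici.mpr le_rfl) (mem_Ici.mpr ht) ht
  refine ⟨k, max C0 (max C1 C2), Vp, Vm, P, ℓ, hka, hkb, ?_, hVppos, hP, hℓd, ?_, ?_, ?_, ?_, hVd⟩
  · exact lt_of_lt_of_le hC1pos ((le_max_left _ _).trans (le_max_right _ _))
  · exact fun t => (hℓb t).trans ((le_max_left _ _).trans (le_max_right _ _))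
  · exact fun t => (hsinb t).trans (le_max_left _ _)
  · intro t
    refine (hVpb t).trans (mul_le_mul_of_nonneg_right
      ((le_max_right _ _).trans (le_max_right _ _)) ?_)
    linarith [Real.tanh_lt_one t]
  · intro t
    refine (hVmb t).trans (mul_le_mul_of_nonneg_right
      ((le_max_right _ _).trans (le_max_right _ _)) ?_)
    linarith [Real.neg_one_lt_tanh t]

end Pool.Agent.Y310.SC.Fun
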