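import Pool.Agent.Y310.SC.Int

/-!
Continuity and homogeneity of the gradient of the homogeneous `p`-harmonic function.
-/

set_option autoImplicit false

namespace Pool.Agent.Y310.SC.Grad

open Set Filter Topology MeasureTheory
open Pool.Agent.Helper749.PReg
open Pool.Agent.Y310.SC.Geo Pool.Agent.Y310.SC.Sol Pool.Agent.Y310.SC.Int
open scoped ContDiff

variable {N : ℕ} {μ k2 : ℝ} (Pr : Prof N μ k2)

lemma dRRpow (s : ℝ) (hs : 1 ≤ s) (z : E N) :
    HasFDerivAt (fun z : E N => RR z ^ s) ((s * RR z ^ (s - 1)) • (dqf cX z + dqf cY z)) z :=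
  (hasFDerivAt_RR z).rpow_const (Or.inr hs)

lemma single_dRR (z : E N) (j : Fin (N + N)) :
    (dqf cX z + dqf cY z) (EuclideanSpace.single j 1) = 2 * z j := by
  rw [_root_.add_apply, dqf_single, dqf_single]
  have := cXY j
  have e : cY j = 1 - cX j := by linarith
  rw [e]
  ring

lemma hasFDerivAt_axis_p {z₀ : E N} (hX : 0 < XX z₀) (hY : YY z₀ = 0) :
    HasFDerivAt (uu Pr)
      (Pr.Vp • ((Pr.k / 2 * RR z₀ ^ (Pr.k / 2 - 1)) • (dqf cX z₀ + dqf cY z₀))) z₀ := by
  have hk2 := Pr.hk2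
  have hM := Pr.hM
  have hD : HasFDerivAt (fun z => uu Pr z - RR z ^ (Pr.k / 2) * Pr.Vp) (0 : E N →L[ℝ] ℝ) z₀ := by
    refine Asymptotics.IsBigO.hasFDerivAt (n := 2) ?_ (by norm_num)
    refine Asymptotics.IsBigO.of_bound (2 * Pr.M * (RR z₀ ^ (Pr.k / 2 - 1) + 1)) ?_
    have hnear : ∀ᶠ z in 𝓝 z₀, RR z ^ (Pr.k / 2 - 1) < RR z₀ ^ (Pr.k / 2 - 1) + 1 := by
      have : ContinuousAt (fun z : E N => RR z ^ (Pr.k / 2 - 1)) z₀ :=
        continuous_RR.continuousAt.rpow_const (Or.inr (by linarith))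
      exact this.eventually_lt_const (by linarith)
    have hpos : ∀ᶠ z in 𝓝 z₀, 0 < XX z := continuous_XX.continuousAt.eventually_const_lt hX
    filter_upwards [hnear, hpos] with z hz hz2
    rw [Real.norm_eq_abs, norm_pow, norm_norm]
    refine (uu_near_p Pr hz2).trans ?_
    have h5 := YY_le hY z
    have h6 := YY_nonneg z
    have h7 : 0 ≤ RR z ^ (Pr.k / 2 - 1) := Real.rpow_nonneg (RR_nonneg z) _
    have h8 : 0 ≤ 2 * Pr.M * (RR z₀ ^ (Pr.k / 2 - 1) + 1) :=
      mul_nonneg (by linarith) (by linarith)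
    gcongr
  have h2 := (dRRpow (Pr.k / 2) (by linarith) z₀).mul_const Pr.Vp
  have h3 := hD.add h2
  rw [zero_add] at h3
  refine h3.congr_of_eventuallyEq ?_
  filter_upwards with w
  simp

lemma hasFDerivAt_axis_m {z₀ : E N} (hX : XX z₀ = 0) (hY : 0 < YY z₀) :
    HasFDerivAt (uu Pr)
      (Pr.Vm • ((Pr.k / 2 * RR z₀ ^ (Pr.k / 2 - 1)) • (dqf cX z₀ + dqf cY z₀))) z₀ := by
  have hk2 := Pr.hk2
  have hM := Pr.hM
  have hD : HasFDerivAt (fun z => uu Pr z - RR z ^ (Pr.k / 2) * Pr.Vm) (0 : E N →L[ℝ] ℝ) z₀ := by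
    refine Asymptotics.IsBigO.hasFDerivAt (n := 2) ?_ (by norm_num)
    refine Asymptotics.IsBigO.of_bound (2 * Pr.M * (RR z₀ ^ (Pr.k / 2 - 1) + 1)) ?_
    have hnear : ∀ᶠ z in 𝓝 z₀, RR z ^ (Pr.k / 2 - 1) < RR z₀ ^ (Pr.k / 2 - 1) + 1 := by
      have : ContinuousAt (fun z : E N => RR z ^ (Pr.k / 2 - 1)) z₀ :=
        continuous_RR.continuousAt.rpow_const (Or.inr (by linarith))
      exact this.eventually_lt_const (by linarith)
    have hpos : ∀ᶠ z in 𝓝 z₀, 0 < YY z := continuous_YY.continuousAt.eventually_const_lt hY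
    filter_upwards [hnear, hpos] with z hz hz2
    rw [Real.norm_eq_abs, norm_pow, norm_norm]
    refine (uu_near_m Pr hz2).trans ?_
    have h5 := XX_le hX z
    have h6 := XX_nonneg z
    have h7 : 0 ≤ RR z ^ (Pr.k / 2 - 1) := Real.rpow_nonneg (RR_nonneg z) _
    have h8 : 0 ≤ 2 * Pr.M * (RR z₀ ^ (Pr.k / 2 - 1) + 1) :=
      mul_nonneg (by linarith) (by linarith)
    gcongr
  have h2 := (dRRpow (Pr.k / 2) (by linarith) z₀).mul_const Pr.Vm
  have h3 := hD.add h2
  rw [zero_add] at h3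
  refine h3.congr_of_eventuallyEq ?_
  filter_upwards with w
  simp

lemma pd_axis_p {z : E N} (hX : 0 < XX z) (hY : YY z = 0) (j : Fin (N + N)) :
    pd j (uu Pr) z = z j * (RR z ^ (Pr.k / 2 - 1) * (Pr.k * Pr.Vp)) := by
  unfold pd
  rw [(hasFDerivAt_axis_p Pr hX hY).fderiv]
  simp only [_root_.smul_apply, smul_eq_mul, single_dRR]
  ring

lemma pd_axis_m {z : E N} (hX : XX z = 0) (hY : 0 < YY z) (j : Fin (N + N)) :
    pd j (uu Pr) z = z j * (RR z ^ (Pr.k / 2 - 1) * (Pr.k * Pr.Vm)) := by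
  unfold pd
  rw [(hasFDerivAt_axis_m Pr hX hY).fderiv]
  simp only [_root_.smul_apply, smul_eq_mul, single_dRR]
  ring

lemma eq_zero_of {z : E N} (hX : XX z = 0) (hY : YY z = 0) : z = 0 := by
  have := norm_sq z
  rw [hX, hY] at this
  simpa using this

lemma uu_zero : uu Pr (0 : E N) = 0 := by
  have := uu_bound Pr (0 : E N)
  have hR : RR (0 : E N) = 0 := by rw [RR_eq_norm]; simp
  have hk := Pr.hk2
  rw [hR, Real.zero_rpow (by linarith), mul_zero] at this
  exact abs_nonpos_iff.1 this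

lemma hasFDerivAt_zero : HasFDerivAt (uu Pr) (0 : E N →L[ℝ] ℝ) 0 := by
  have hk2 := Pr.hk2
  have hM := Pr.hM
  refine Asymptotics.IsBigO.hasFDerivAt (n := 2) ?_ (by norm_num)
  refine Asymptotics.IsBigO.of_bound (Pr.M + |Pr.Vp| + |Pr.Vm|) ?_
  have hnear : ∀ᶠ z in 𝓝 (0 : E N), RR z < 1 := by
    apply continuous_RR.continuousAt.eventually_lt_const
    rw [RR_eq_norm]
    simp
  filter_upwards [hnear] with z hz
  rw [sub_zero, Real.norm_eq_abs, norm_pow, norm_norm, ← RR_eq_norm]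
  refine (uu_bound Pr z).trans ?_
  have : RR z ^ (Pr.k / 2) ≤ RR z := by
    conv_rhs => rw [← Real.rpow_one (RR z)]
    exact Real.rpow_le_rpow_of_exponent_ge' (RR_nonneg z) hz.le (by norm_num) (by linarith)
  have h3 : 0 ≤ Pr.M + |Pr.Vp| + |Pr.Vm| := by positivity
  exact mul_le_mul_of_nonneg_left this h3

lemma pd_zero (j : Fin (N + N)) : pd j (uu Pr) (0 : E N) = 0 := by
  unfold pd
  rw [(hasFDerivAt_zero Pr).fderiv]
  simp

lemma abs_le_sqrt_X (z : E N) (i : Fin N) : |z (Fin.castAdd N i)| ≤ √(XX z) := by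
  apply Real.abs_le_sqrt
  rw [XX_eq]
  exact Finset.single_le_sum (f := fun i : Fin N => z (Fin.castAdd N i) ^ 2)
    (fun i _ => sq_nonneg _) (Finset.mem_univ i)

lemma abs_le_sqrt_Y (z : E N) (i : Fin N) : |z (Fin.natAdd N i)| ≤ √(YY z) := by
  apply Real.abs_le_sqrt
  rw [YY_eq]
  exact Finset.single_le_sum (f := fun i : Fin N => z (Fin.natAdd N i) ^ 2)
    (fun i _ => sq_nonneg _) (Finset.mem_univ i)

lemma abs_le_sqrt_R (z : E N) (j : Fin (N + N)) : |z j| ≤ √(RR z) := by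
  rw [RR_eq_norm, Real.sqrt_sq (norm_nonneg z)]
  exact PiLp.norm_apply_le z j

lemma aux1 {X Y : ℝ} (hX : 0 < X) (hY : 0 < Y) : √X * (2 * Y / (X + Y)) ≤ 2 * √Y := by
  have h1 : √X ^ 2 = X := Real.sq_sqrt hX.le
  have h2 : √Y ^ 2 = Y := Real.sq_sqrt hY.le
  have h3 : 0 < √X := Real.sqrt_pos.2 hX
  have h4 : 0 < √Y := Real.sqrt_pos.2 hY
  rw [← mul_div_assoc, div_le_iff₀ (by linarith)]
  have e : √X * (2 * Y) = 2 * √Y * (√X * √Y) := by
    rw [← h2]; simp only [h2]; nlinarith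
  rw [e]
  have : √X * √Y ≤ X + Y := by nlinarith [sq_nonneg (√X - √Y)]
  exact mul_le_mul_of_nonneg_left this (by positivity)

/-- `|z_j κ_j|` is small near the first axis -/
lemma kap_small_p {z : E N} (hz : z ∈ UU) (j : Fin (N + N)) :
    |z j| * |kap z j| ≤ 2 * √(YY z) := by
  have hX := hz.1
  have hY := hz.2
  have hR := RR_pos hz
  refine Fin.addCases (fun i => ?_) (fun i => ?_) j
  · have e : kap z (Fin.castAdd N i) = 2 * YY z / RR z := by
      unfold kap
      rw [cX_left, cY_left]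
      ring
    rw [e, abs_of_pos (a := 2 * YY z / RR z) (by positivity)]
    calc |z (Fin.castAdd N i)| * (2 * YY z / RR z) ≤ √(XX z) * (2 * YY z / RR z) := by
          gcongr
          exact abs_le_sqrt_X z i
      _ ≤ 2 * √(YY z) := aux1 hX hY
  · have e : kap z (Fin.natAdd N i) = - (2 * XX z / RR z) := by
      unfold kap
      rw [cX_right, cY_right]
      ring
    rw [e, abs_neg, abs_of_pos (a := 2 * XX z / RR z) (by positivity), mul_comm]
    have h1 : 2 * XX z / RR z ≤ 2 := by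
      rw [div_le_iff₀ hR]
      unfold RR
      linarith
    exact mul_le_mul h1 (abs_le_sqrt_Y z i) (abs_nonneg _) (by norm_num)

lemma kap_small_m {z : E N} (hz : z ∈ UU) (j : Fin (N + N)) :
    |z j| * |kap z j| ≤ 2 * √(XX z) := by
  have hX := hz.1
  have hY := hz.2
  have hR := RR_pos hz
  refine Fin.addCases (fun i => ?_) (fun i => ?_) j
  · have e : kap z (Fin.castAdd N i) = 2 * YY z / RR z := by
      unfold kap
      rw [cX_left, cY_left]
      ring
    rw [e, abs_of_pos (a := 2 * YY z / RR z) (by positivity), mul_comm]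
    have h1 : 2 * YY z / RR z ≤ 2 := by
      rw [div_le_iff₀ hR]
      unfold RR
      linarith
    exact mul_le_mul h1 (abs_le_sqrt_X z i) (abs_nonneg _) (by norm_num)
  · have e : kap z (Fin.natAdd N i) = - (2 * XX z / RR z) := by
      unfold kap
      rw [cX_right, cY_right]
      ring
    rw [e, abs_neg, abs_of_pos (a := 2 * XX z / RR z) (by positivity)]
    calc |z (Fin.natAdd N i)| * (2 * XX z / RR z) ≤ √(YY z) * (2 * XX z / RR z) := by
          gcongr
          exact abs_le_sqrt_Y z i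
      _ = √(YY z) * (2 * XX z / (YY z + XX z)) := by unfold RR; rw [add_comm (XX z)]
      _ ≤ 2 * √(XX z) := aux1 hY hX

lemma aux2 {X Y : ℝ} (hX : 0 < X) (hY : 0 < Y) : √(X + Y) * (2 * Y / (X + Y)) ≤ 2 * √Y := by
  have h1 : √(X + Y) ^ 2 = X + Y := Real.sq_sqrt (by linarith)
  have h2 : √Y ^ 2 = Y := Real.sq_sqrt hY.le
  have h3 : 0 < √(X + Y) := Real.sqrt_pos.2 (by linarith)
  have h4 : 0 < √Y := Real.sqrt_pos.2 hY
  rw [← mul_div_assoc, div_le_iff₀ (by linarith)]
  have h5 : √Y ≤ √(X + Y) := Real.sqrt_le_sqrt (by linarith)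
  have e : √(X + Y) * (2 * Y) = 2 * √Y * (√(X + Y) * √Y) := by nlinarith
  rw [e]
  have : √(X + Y) * √Y ≤ X + Y := by nlinarith
  exact mul_le_mul_of_nonneg_left this (by positivity)

lemma pd_near_p {z : E N} (hX : 0 < XX z) (j : Fin (N + N)) :
    |pd j (uu Pr) z - z j * (RR z ^ (Pr.k / 2 - 1) * (Pr.k * Pr.Vp))|
      ≤ RR z ^ (Pr.k / 2 - 1) * ((2 * Pr.k + 2) * Pr.M * √(YY z)) := by
  rcases (YY_nonneg z).eq_or_lt with h | h
  · rw [pd_axis_p Pr hX h.symm, ← h]
    simp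
  · have hU : z ∈ UU := ⟨hX, h⟩
    have hR := RR_pos hU
    have hk := Pr.hk2
    have hM := Pr.hM
    rw [pd_uu Pr hU]
    have e : z j * (RR z ^ (Pr.k / 2 - 1) * (Pr.k * Pr.V (tt z) + kap z j * Pr.β (tt z)))
        - z j * (RR z ^ (Pr.k / 2 - 1) * (Pr.k * Pr.Vp))
        = RR z ^ (Pr.k / 2 - 1) * (Pr.k * (z j * (Pr.V (tt z) - Pr.Vp))
          + (z j * kap z j) * Pr.β (tt z)) := by ring
    rw [e, abs_mul, abs_of_pos (Real.rpow_pos_of_pos hR _)]
    apply mul_le_mul_of_nonneg_left _ (Real.rpow_pos_of_pos hR _).le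
    have h1 := Pr.limp (tt z)
    have h2 : 1 - Real.tanh (tt z) = 2 * YY z / RR z := by
      rw [tanh_tt hU]
      unfold RR at hR ⊢
      field_simp
      ring
    rw [h2] at h1
    have h3 : |z j| * |Pr.V (tt z) - Pr.Vp| ≤ Pr.M * (2 * √(YY z)) := by
      calc |z j| * |Pr.V (tt z) - Pr.Vp| ≤ √(RR z) * (Pr.M * (2 * YY z / RR z)) :=
            mul_le_mul (abs_le_sqrt_R z j) h1 (abs_nonneg _) (Real.sqrt_nonneg _)
        _ = Pr.M * (√(RR z) * (2 * YY z / RR z)) := by ring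
        _ ≤ Pr.M * (2 * √(YY z)) := by
          apply mul_le_mul_of_nonneg_left _ hM.le
          exact aux2 hX h
    have h4 : |z j * kap z j| * |Pr.β (tt z)| ≤ 2 * √(YY z) * Pr.M := by
      rw [abs_mul]
      exact mul_le_mul (kap_small_p hU j) (Pr.βM _) (abs_nonneg _) (by positivity)
    refine (abs_add_le _ _).trans ?_
    rw [abs_mul, abs_mul, abs_mul (z j * kap z j), abs_of_pos (by linarith : 0 < Pr.k)]
    nlinarith

lemma pd_near_m {z : E N} (hY : 0 < YY z) (j : Fin (N + N)) :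
    |pd j (uu Pr) z - z j * (RR z ^ (Pr.k / 2 - 1) * (Pr.k * Pr.Vm))|
      ≤ RR z ^ (Pr.k / 2 - 1) * ((2 * Pr.k + 2) * Pr.M * √(XX z)) := by
  rcases (XX_nonneg z).eq_or_lt with h | h
  · rw [pd_axis_m Pr h.symm hY, ← h]
    simp
  · have hU : z ∈ UU := ⟨h, hY⟩
    have hR := RR_pos hU
    have hk := Pr.hk2
    have hM := Pr.hM
    rw [pd_uu Pr hU]
    have e : z j * (RR z ^ (Pr.k / 2 - 1) * (Pr.k * Pr.V (tt z) + kap z j * Pr.β (tt z)))
        - z j * (RR z ^ (Pr.k / 2 - 1) * (Pr.k * Pr.Vm))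
        = RR z ^ (Pr.k / 2 - 1) * (Pr.k * (z j * (Pr.V (tt z) - Pr.Vm))
          + (z j * kap z j) * Pr.β (tt z)) := by ring
    rw [e, abs_mul, abs_of_pos (Real.rpow_pos_of_pos hR _)]
    apply mul_le_mul_of_nonneg_left _ (Real.rpow_pos_of_pos hR _).le
    have h1 := Pr.limm (tt z)
    have h2 : 1 + Real.tanh (tt z) = 2 * XX z / (YY z + XX z) := by
      rw [tanh_tt hU]
      have : 0 < XX z + YY z := by linarith
      have : 0 < YY z + XX z := by linarith
      field_simp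
      ring
    rw [h2] at h1
    have h3 : |z j| * |Pr.V (tt z) - Pr.Vm| ≤ Pr.M * (2 * √(XX z)) := by
      calc |z j| * |Pr.V (tt z) - Pr.Vm| ≤ √(RR z) * (Pr.M * (2 * XX z / (YY z + XX z))) :=
            mul_le_mul (abs_le_sqrt_R z j) h1 (abs_nonneg _) (Real.sqrt_nonneg _)
        _ = Pr.M * (√(YY z + XX z) * (2 * XX z / (YY z + XX z))) := by
          unfold RR; rw [add_comm (XX z)]; ring
        _ ≤ Pr.M * (2 * √(XX z)) := by
          apply mul_le_mul_of_nonneg_left _ hM.le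
          exact aux2 hY h
    have h4 : |z j * kap z j| * |Pr.β (tt z)| ≤ 2 * √(XX z) * Pr.M := by
      rw [abs_mul]
      exact mul_le_mul (kap_small_m hU j) (Pr.βM _) (abs_nonneg _) (by positivity)
    refine (abs_add_le _ _).trans ?_
    rw [abs_mul, abs_mul, abs_mul (z j * kap z j), abs_of_pos (by linarith : 0 < Pr.k)]
    nlinarith

/-- bound of the gradient everywhere -/
lemma pd_bound (z : E N) (j : Fin (N + N)) :
    |pd j (uu Pr) z| ≤ (Pr.M + Pr.k * |Pr.Vp| + Pr.k * |Pr.Vm|) * RR z ^ ((Pr.k - 1) / 2) := by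
  have hk := Pr.hk2
  have hM := Pr.hM
  have hR : 0 ≤ RR z ^ ((Pr.k - 1) / 2) := Real.rpow_nonneg (RR_nonneg z) _
  have hp1 : 0 ≤ Pr.k * |Pr.Vp| := by positivity
  have hp2 : 0 ≤ Pr.k * |Pr.Vm| := by positivity
  have haxis : 0 < RR z → ∀ c : ℝ, |z j * (RR z ^ (Pr.k / 2 - 1) * (Pr.k * c))|
      ≤ Pr.k * |c| * RR z ^ ((Pr.k - 1) / 2) := by
    intro hRR c
    have e : RR z ^ ((Pr.k - 1) / 2) = RR z ^ (1 / 2 : ℝ) * RR z ^ (Pr.k / 2 - 1) := by
      rw [← Real.rpow_add hRR]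
      congr 1
      ring
    have h1 : |z j| ≤ RR z ^ (1 / 2 : ℝ) := by
      rw [← Real.sqrt_eq_rpow]
      exact abs_le_sqrt_R z j
    rw [e, abs_mul, abs_mul, abs_mul, abs_of_pos (Real.rpow_pos_of_pos hRR _),
      abs_of_pos (by linarith : 0 < Pr.k)]
    calc |z j| * (RR z ^ (Pr.k / 2 - 1) * (Pr.k * |c|))
        ≤ RR z ^ (1 / 2 : ℝ) * (RR z ^ (Pr.k / 2 - 1) * (Pr.k * |c|)) := by gcongr
      _ = _ := by ring
  rcases (XX_nonneg z).eq_or_lt with hX | hX
  · rcases (YY_nonneg z).eq_or_lt with hY | hY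
    · have h0 := eq_zero_of hX.symm hY.symm
      subst h0
      rw [pd_zero, abs_zero]
      positivity
    · rw [pd_axis_m Pr hX.symm hY]
      refine (haxis (by unfold RR; linarith) _).trans ?_
      nlinarith
  · rcases (YY_nonneg z).eq_or_lt with hY | hY
    · rw [pd_axis_p Pr hX hY.symm]
      refine (haxis (by unfold RR; linarith) _).trans ?_
      nlinarith
    · have hU : z ∈ UU := ⟨hX, hY⟩
      have h1 : ‖GG Pr z j‖ ≤ ‖GG Pr z‖ := PiLp.norm_apply_le _ j
      rw [norm_GG Pr hU, Real.norm_eq_abs, GG_apply] at h1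
      refine h1.trans ?_
      have h2 := Pr.ρM (tt z)
      have h3 : RR z ^ ((Pr.k - 1) / 2) * Pr.ρ (tt z) ≤ RR z ^ ((Pr.k - 1) / 2) * Pr.M :=
        mul_le_mul_of_nonneg_left h2 hR
      nlinarith

lemma continuousAt_sqrt_of {f : E N → ℝ} (hf : Continuous f) (z : E N) :
    ContinuousAt (fun z => √(f z)) z := (Real.continuous_sqrt.comp hf).continuousAt

/-- the gradient is continuous -/
lemma continuous_pd_uu (j : Fin (N + N)) : Continuous (pd j (uu Pr)) := by
  have hk := Pr.hk2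
  have hM := Pr.hM
  have cz : Continuous (fun z : E N => z j) :=
    (EuclideanSpace.proj j : E N →L[ℝ] ℝ).continuous
  have cR : ∀ s : ℝ, 0 ≤ s → Continuous (fun z : E N => RR z ^ s) :=
    fun s hs => continuous_RRpow hs
  rw [continuous_iff_continuousAt]
  intro z₀
  -- squeeze principle
  have sq : ∀ (c b : E N → ℝ), Continuous c → Continuous b → b z₀ = 0 →
      (∀ᶠ z in 𝓝 z₀, |pd j (uu Pr) z - c z| ≤ b z) → ContinuousAt (pd j (uu Pr)) z₀ := by
    intro c b hc hb hb0 hle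
    have h1 : Tendsto (fun z => pd j (uu Pr) z - c z) (𝓝 z₀) (𝓝 0) := by
      rw [tendsto_zero_iff_abs_tendsto_zero]
      refine squeeze_zero' (Eventually.of_forall fun z => abs_nonneg _) hle ?_
      rw [← hb0]
      exact hb.tendsto z₀
    have h2 := h1.add (hc.tendsto z₀)
    have h3 : pd j (uu Pr) z₀ = c z₀ := by
      have := hle.self_of_nhds
      rw [hb0] at this
      have := abs_nonpos_iff.1 this
      linarith
    rw [ContinuousAt, h3]
    have e : (fun z => pd j (uu Pr) z - c z + c z) = pd j (uu Pr) := by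
      ext z
      ring
    rw [e, zero_add] at h2
    exact h2
  rcases (XX_nonneg z₀).eq_or_lt with hX | hX
  · rcases (YY_nonneg z₀).eq_or_lt with hY | hY
    · have h0 := eq_zero_of hX.symm hY.symm
      refine sq (fun _ => 0)
        (fun z => (Pr.M + Pr.k * |Pr.Vp| + Pr.k * |Pr.Vm|) * RR z ^ ((Pr.k - 1) / 2))
        continuous_const (continuous_const.mul (cR _ (by linarith))) ?_ ?_
      · rw [h0, RR_eq_norm, norm_zero]
        rw [show (0 : ℝ) ^ 2 = 0 by norm_num, Real.zero_rpow (by linarith), mul_zero]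
      · filter_upwards with z
        rw [sub_zero]
        exact pd_bound Pr z j
    · refine sq (fun z => z j * (RR z ^ (Pr.k / 2 - 1) * (Pr.k * Pr.Vm)))
        (fun z => RR z ^ (Pr.k / 2 - 1) * ((2 * Pr.k + 2) * Pr.M * √(XX z)))
        (cz.mul ((cR _ (by linarith)).mul continuous_const))
        ((cR _ (by linarith)).mul (continuous_const.mul
          (Real.continuous_sqrt.comp continuous_XX))) ?_ ?_
      · rw [← hX]
        simp
      · filter_upwards [continuous_YY.continuousAt.eventually_const_lt hY] with z hz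
        exact pd_near_m Pr hz j
  · rcases (YY_nonneg z₀).eq_or_lt with hY | hY
    · refine sq (fun z => z j * (RR z ^ (Pr.k / 2 - 1) * (Pr.k * Pr.Vp)))
        (fun z => RR z ^ (Pr.k / 2 - 1) * ((2 * Pr.k + 2) * Pr.M * √(YY z)))
        (cz.mul ((cR _ (by linarith)).mul continuous_const))
        ((cR _ (by linarith)).mul (continuous_const.mul
          (Real.continuous_sqrt.comp continuous_YY))) ?_ ?_
      · rw [← hY]
        simp
      · filter_upwards [continuous_XX.continuousAt.eventually_const_lt hX] with z hz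
        exact pd_near_p Pr hz j
    · have hU : z₀ ∈ UU := ⟨hX, hY⟩
      have e : pd j (uu Pr) =ᶠ[𝓝 z₀] fun z => z j * (RR z ^ (Pr.k / 2 - 1)
          * (Pr.k * Pr.V (tt z) + ((cX j - cY j) - Real.tanh (tt z)) * Pr.β (tt z))) := by
        filter_upwards [isOpen_UU.mem_nhds hU] with z hz
        rw [pd_uu Pr hz, kap_eq hz]
      refine ContinuousAt.congr ?_ e.symm
      have ct : ContinuousAt tt z₀ := (hasFDerivAt_tt hU).continuousAt
      have cV : Continuous Pr.V :=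
        continuous_iff_continuousAt.mpr fun t => (Pr.dV t).continuousAt
      have c1 : ContinuousAt (fun z => Pr.V (tt z)) z₀ := cV.continuousAt.comp ct
      have c2 : ContinuousAt (fun z => Pr.β (tt z)) z₀ := Pr.βc.continuousAt.comp ct
      have c3 : ContinuousAt (fun z => Real.tanh (tt z)) z₀ :=
        (Pool.Agent.Helper749.ConeFun.continuous_tanh).continuousAt.comp ct
      exact cz.continuousAt.mul ((cR _ (by linarith)).continuousAt.mul
        ((continuousAt_const.mul c1).add ((continuousAt_const.sub c3).mul c2)))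

lemma continuous_GG : Continuous (GG Pr) := by
  unfold GG
  exact (PiLp.continuous_toLp 2 _).comp (continuous_pi fun j => continuous_pd_uu Pr j)

/-! ### homogeneity -/

lemma XX_smul (t : ℝ) (z : E N) : XX (t • z) = t ^ 2 * XX z := by
  rw [XX_eq, XX_eq, Finset.mul_sum]
  refine Finset.sum_congr rfl fun i _ => ?_
  rw [PiLp.smul_apply, smul_eq_mul]
  ring

lemma YY_smul (t : ℝ) (z : E N) : YY (t • z) = t ^ 2 * YY z := by
  rw [YY_eq, YY_eq, Finset.mul_sum]
  refine Finset.sum_congr rfl fun i _ => ?_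
  rw [PiLp.smul_apply, smul_eq_mul]
  ring

lemma RR_smul (t : ℝ) (z : E N) : RR (t • z) = t ^ 2 * RR z := by
  unfold RR
  rw [XX_smul, YY_smul]
  ring

lemma tt_smul {t : ℝ} (ht : 0 < t) {z : E N} (hz : z ∈ UU) : tt (t • z) = tt z := by
  have ht2 : (t ^ 2) ≠ 0 := by positivity
  unfold tt
  rw [XX_smul, YY_smul, Real.log_mul ht2 hz.1.ne', Real.log_mul ht2 hz.2.ne']
  ring

lemma rpow_sq {t : ℝ} (ht : 0 < t) (s : ℝ) : (t ^ 2) ^ (s / 2) = t ^ s := by
  rw [← Real.rpow_natCast t 2, ← Real.rpow_mul ht.le]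
  congr 1
  push_cast
  ring

lemma uu_smul {t : ℝ} (ht : 0 < t) (z : E N) : uu Pr (t • z) = t ^ Pr.k * uu Pr z := by
  have ht2 : 0 < t ^ 2 := by positivity
  have hR : RR (t • z) ^ (Pr.k / 2) = t ^ Pr.k * RR z ^ (Pr.k / 2) := by
    rw [RR_smul, Real.mul_rpow ht2.le (RR_nonneg z), rpow_sq ht]
  by_cases hY : YY z = 0
  · have hY2 : YY (t • z) = 0 := by rw [YY_smul, hY, mul_zero]
    unfold uu
    rw [if_pos hY, if_pos hY2, hR]
    ring
  · by_cases hX : XX z = 0
    · have hX2 : XX (t • z) = 0 := by rw [XX_smul, hX, mul_zero]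
      have hY2 : YY (t • z) ≠ 0 := by rw [YY_smul]; exact mul_ne_zero ht2.ne' hY
      unfold uu
      rw [if_neg hY, if_neg hY2, if_pos hX, if_pos hX2, hR]
      ring
    · have hU : z ∈ UU := ⟨lt_of_le_of_ne (XX_nonneg z) (Ne.symm hX),
        lt_of_le_of_ne (YY_nonneg z) (Ne.symm hY)⟩
      have hU2 : t • z ∈ UU := ⟨by rw [XX_smul]; exact mul_pos ht2 hU.1,
        by rw [YY_smul]; exact mul_pos ht2 hU.2⟩
      rw [uu_UU Pr hU, uu_UU Pr hU2]
      unfold bb
      rw [hR, tt_smul ht hU]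
      ring

lemma pd_smul {t : ℝ} (ht : 0 < t) (z : E N) (j : Fin (N + N)) :
    pd j (uu Pr) (t • z) = t ^ (Pr.k - 1) * pd j (uu Pr) z := by
  have h1 : HasFDerivAt (fun z : E N => t • z) (t • ContinuousLinearMap.id ℝ (E N)) z :=
    (hasFDerivAt_id z).const_smul t
  have h2 : HasFDerivAt (fun z : E N => uu Pr (t • z))
      ((fderiv ℝ (uu Pr) (t • z)).comp (t • ContinuousLinearMap.id ℝ (E N))) z :=
    (differentiable_uu Pr (t • z)).hasFDerivAt.comp z h1
  have h3 : HasFDerivAt (fun z : E N => uu Pr (t • z)) (t ^ Pr.k • fderiv ℝ (uu Pr) z) z := by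
    have e : (fun z : E N => uu Pr (t • z)) = fun z => t ^ Pr.k * uu Pr z :=
      funext fun z => uu_smul Pr ht z
    rw [e]
    exact (differentiable_uu Pr z).hasFDerivAt.const_mul _
  have h4 := h2.unique h3
  have h5 := congrArg (fun L : E N →L[ℝ] ℝ => L (EuclideanSpace.single j 1)) h4
  simp only [ContinuousLinearMap.comp_apply, _root_.smul_apply, ContinuousLinearMap.id_apply,
    map_smul, smul_eq_mul] at h5
  unfold pd
  have e : t ^ Pr.k = t * t ^ (Pr.k - 1) := by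
    rw [Real.rpow_sub_one ht.ne']
    field_simp
  rw [e, mul_assoc] at h5
  exact mul_left_cancel₀ ht.ne' h5

lemma GG_smul {t : ℝ} (ht : 0 < t) (z : E N) : GG Pr (t • z) = t ^ (Pr.k - 1) • GG Pr z := by
  ext j
  rw [PiLp.smul_apply, GG_apply, GG_apply, pd_smul Pr ht, smul_eq_mul]

lemma GG_zero : GG Pr (0 : E N) = 0 := by
  ext j
  rw [GG_apply, pd_zero]
  rfl

end Pool.Agent.Y310.SC.Grad
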